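import Mathlib

open Finset

namespace Pool.Agent.Lib.MP_d9d2fc_pr

/-- greedy choice of signs: a signed sum of `|S|` vectors of squared length at most `R`
has squared length at most `|S| R` for a suitable choice of signs. -/
lemma exists_signs {ι β : Type*} [Fintype ι] [DecidableEq β] (z : β → ι → ℝ) (R : ℝ)
    (hz : ∀ l, ∑ i, z l i ^ 2 ≤ R) (S : Finset β) :
    ∃ T : Finset β, ∑ i, (∑ l ∈ S, (if l ∈ T then (1 : ℝ) else -1) * z l i) ^ 2 ≤ #S * R := by
  induction S using Finset.induction_on with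
  | empty => exact ⟨∅, by simp⟩
  | insert a S ha ih =>
    obtain ⟨T, hT⟩ := ih
    -- the partial sum
    set y : ι → ℝ := fun i => ∑ l ∈ S, (if l ∈ T then (1 : ℝ) else -1) * z l i with hy
    have hcard : ((#(insert a S) : ℕ) : ℝ) = #S + 1 := by
      rw [card_insert_of_notMem ha]; push_cast; ring
    by_cases hc : ∑ i, y i * z a i ≤ 0
    · -- take sign + at a
      refine ⟨insert a T, ?_⟩
      have h1 : ∀ i, ∑ l ∈ insert a S, (if l ∈ insert a T then (1 : ℝ) else -1) * z l i
          = y i + z a i := by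
        intro i
        rw [sum_insert ha, if_pos (mem_insert_self a T), one_mul, add_comm]
        congr 1
        apply sum_congr rfl
        intro l hl
        have hla : l ≠ a := fun h => ha (h ▸ hl)
        simp [mem_insert, hla]
      simp_rw [h1]
      have h2 : ∑ i, (y i + z a i) ^ 2 = ∑ i, y i ^ 2 + 2 * ∑ i, y i * z a i + ∑ i, z a i ^ 2 := by
        rw [mul_sum, ← sum_add_distrib, ← sum_add_distrib]
        exact sum_congr rfl fun i _ => by ring
      rw [h2, hcard]
      nlinarith [hz a]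
    · refine ⟨T.erase a, ?_⟩
      have h1 : ∀ i, ∑ l ∈ insert a S, (if l ∈ T.erase a then (1 : ℝ) else -1) * z l i
          = y i - z a i := by
        intro i
        rw [sum_insert ha, if_neg (notMem_erase a T)]
        have : ∑ l ∈ S, (if l ∈ T.erase a then (1 : ℝ) else -1) * z l i = y i := by
          apply sum_congr rfl
          intro l hl
          have hla : l ≠ a := fun h => ha (h ▸ hl)
          simp [mem_erase, hla]
        rw [this]; ring
      simp_rw [h1]
      have h2 : ∑ i, (y i - z a i) ^ 2 = ∑ i, y i ^ 2 - 2 * ∑ i, y i * z a i + ∑ i, z a i ^ 2 := by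
        rw [mul_sum, ← sum_sub_distrib, ← sum_add_distrib]
        exact sum_congr rfl fun i _ => by ring
      rw [h2, hcard]
      push Not at hc
      nlinarith [hz a]

/-- a set shattered by patterns realised with margin `κ` has at most `1 / κ ^ 2` elements. -/
lemma card_le_of_shatters {ι β : Type*} [Fintype ι] [DecidableEq β]
    (z : β → ι → ℝ) {R κ : ℝ} (hR : 0 < R) (hκ : 0 < κ) (hz : ∀ l, ∑ i, z l i ^ 2 ≤ R)
    (𝒜 : Finset (Finset β))
    (h𝒜 : ∀ P ∈ 𝒜, ∃ v : ι → ℝ, ∑ i, v i ^ 2 ≤ R ∧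
      ∀ l, (l ∈ P → κ * R ≤ ∑ i, v i * z l i) ∧ (l ∉ P → ∑ i, v i * z l i ≤ -(κ * R)))
    {S : Finset β} (hS : 𝒜.Shatters S) : (#S : ℝ) * κ ^ 2 ≤ 1 := by
  obtain ⟨T, hT⟩ := exists_signs z R hz S
  obtain ⟨P, hP, hSP⟩ := hS (inter_subset_left (s₁ := S) (s₂ := T))
  obtain ⟨v, hv, hvP⟩ := h𝒜 P hP
  set y : ι → ℝ := fun i => ∑ l ∈ S, (if l ∈ T then (1 : ℝ) else -1) * z l i with hy
  have h1 : (#S : ℝ) * (κ * R) ≤ ∑ i, v i * y i := by
    have h2 : ∑ i, v i * y i = ∑ l ∈ S, (if l ∈ T then (1 : ℝ) else -1) * ∑ i, v i * z l i := by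
      simp only [hy, mul_sum]
      rw [sum_comm]
      exact sum_congr rfl fun l _ => sum_congr rfl fun i _ => by ring
    rw [h2, ← nsmul_eq_mul, ← sum_const]
    apply sum_le_sum
    intro l hl
    by_cases hlT : l ∈ T
    · have : l ∈ P := by
        have : l ∈ S ∩ P := by rw [hSP]; exact mem_inter.mpr ⟨hl, hlT⟩
        exact (mem_inter.mp this).2
      simpa [hlT] using (hvP l).1 this
    · have : l ∉ P := by
        intro hlP
        have : l ∈ S ∩ T := by rw [← hSP]; exact mem_inter.mpr ⟨hl, hlP⟩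
        exact hlT (mem_inter.mp this).2
      have := (hvP l).2 this
      simp only [hlT, if_false]
      linarith
  have h3 : (∑ i, v i * y i) ^ 2 ≤ (∑ i, v i ^ 2) * ∑ i, y i ^ 2 := sum_mul_sq_le_sq_mul_sq _ _ _
  have h4 : (∑ i, v i * y i) ^ 2 ≤ R * (#S * R) := by
    refine h3.trans ?_
    apply mul_le_mul hv hT (sum_nonneg fun i _ => sq_nonneg _) hR.le
  have h5 : ((#S : ℝ) * (κ * R)) ^ 2 ≤ (∑ i, v i * y i) ^ 2 :=
    pow_le_pow_left₀ (by positivity) h1 2
  by_cases hS0 : #S = 0
  · simp [hS0]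
  have hS1 : (0 : ℝ) < #S := by positivity
  have h6 : ((#S : ℝ) * R ^ 2) * ((#S : ℝ) * κ ^ 2) ≤ ((#S : ℝ) * R ^ 2) * 1 := by
    calc ((#S : ℝ) * R ^ 2) * ((#S : ℝ) * κ ^ 2) = ((#S : ℝ) * (κ * R)) ^ 2 := by ring
      _ ≤ R * (#S * R) := h5.trans h4
      _ = _ := by ring
  exact le_of_mul_le_mul_left h6 (by positivity)

lemma sum_choose_le_pow (r D : ℕ) : ∑ k ∈ Iic D, r.choose k ≤ (r + 1) ^ D := by
  rw [add_pow, ← Nat.range_succ_eq_Iic]
  apply sum_le_sum
  intro k hk
  simp only [mem_range] at hk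
  calc r.choose k ≤ r ^ k := Nat.choose_le_pow _ _
    _ = r ^ k * 1 ^ (D - k) * 1 := by simp
    _ ≤ r ^ k * 1 ^ (D - k) * D.choose k := by
      apply Nat.mul_le_mul_left
      exact Nat.choose_pos (by omega)

/-- number of patterns realised with margin `κ` -/
lemma card_patterns_le {ι : Type*} [Fintype ι] {r : ℕ}
    (z : Fin r → ι → ℝ) {R κ : ℝ} (hR : 0 < R) (hκ : 0 < κ) (hz : ∀ l, ∑ i, z l i ^ 2 ≤ R)
    (𝒜 : Finset (Finset (Fin r)))
    (h𝒜 : ∀ P ∈ 𝒜, ∃ v : ι → ℝ, ∑ i, v i ^ 2 ≤ R ∧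
      ∀ l, (l ∈ P → κ * R ≤ ∑ i, v i * z l i) ∧ (l ∉ P → ∑ i, v i * z l i ≤ -(κ * R))) :
    #𝒜 ≤ (r + 1) ^ ⌊1 / κ ^ 2⌋₊ := by
  have h1 : 𝒜.vcDim ≤ ⌊1 / κ ^ 2⌋₊ := by
    apply Finset.sup_le
    intro S hS
    have := card_le_of_shatters z hR hκ hz 𝒜 h𝒜 (mem_shatterer.mp hS)
    apply Nat.le_floor
    rwa [le_div_iff₀ (by positivity)]
  calc #𝒜 ≤ #𝒜.shatterer := card_le_card_shatterer 𝒜
    _ ≤ ∑ k ∈ Iic 𝒜.vcDim, (Fintype.card (Fin r)).choose k := card_shatterer_le_sum_vcDim
    _ ≤ ∑ k ∈ Iic ⌊1 / κ ^ 2⌋₊, (Fintype.card (Fin r)).choose k :=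
        sum_le_sum_of_subset (Iic_subset_Iic.mpr h1)
    _ ≤ _ := by rw [Fintype.card_fin]; exact sum_choose_le_pow r ⌊1 / κ ^ 2⌋₊

open Classical in
/-- the expected (over i.i.d. samples `z_1, …, z_r`) number of pairs of rows with the same sign
pattern is large. -/
lemma same_pattern_bound {ι X Y : Type*} [Fintype ι] [Fintype X] [Fintype Y]
    (ν : X → ℝ) (μ : Y → ℝ) (hν : ∀ x, 0 ≤ ν x) (hμ : ∀ y, 0 ≤ μ y)
    (hν1 : ∑ x, ν x = 1) (hμ1 : ∑ y, μ y = 1)
    (a : X → ι → ℝ) (b : Y → ι → ℝ) {R κ η : ℝ} (hR : 0 < R) (hκ : 0 < κ)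
    (ha : ∀ x, ∑ i, a x i ^ 2 ≤ R) (hb : ∀ y, ∑ i, b y i ^ 2 ≤ R)
    (hη : ∑ x, ∑ y, ν x * μ y * (if |∑ i, a x i * b y i| < κ * R then 1 else 0) ≤ η)
    (r : ℕ) (hr : r * η ≤ 1) :
    (1 - r * η) ^ 2 / (r + 1) ^ ⌊1 / κ ^ 2⌋₊ ≤
      ∑ x, ∑ x', ν x * ν x' * (1 - ∑ y, μ y *
        (if (0 ≤ ∑ i, a x i * b y i ↔ 0 ≤ ∑ i, a x' i * b y i) then 0 else 1)) ^ r := by
  set M : X → Y → ℝ := fun x y => ∑ i, a x i * b y i with hM
  -- probability of the tuple
  set w : (Fin r → Y) → ℝ := fun zz => ∏ l, μ (zz l) with hw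
  have hw0 : ∀ zz, 0 ≤ w zz := fun zz => prod_nonneg fun l _ => hμ _
  have hprod : ∀ f : Y → ℝ, (∑ y, f y) ^ r = ∑ zz : Fin r → Y, ∏ l, f (zz l) := by
    intro f
    have := Finset.prod_univ_sum (fun _ : Fin r => (univ : Finset Y)) (fun _ y => f y)
    simpa [Fintype.piFinset_univ] using this
  have hcomp : ∀ f : Y → ℝ, 1 - ∑ y, μ y * f y = ∑ y, μ y * (1 - f y) := by
    intro f
    simp_rw [mul_sub, mul_one, sum_sub_distrib, hμ1]
  have hcompν : ∀ f : X → ℝ, ∑ x, ν x * (1 - f x) = 1 - ∑ x, ν x * f x := by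
    intro f
    simp_rw [mul_sub, mul_one, sum_sub_distrib, hν1]
  have hw1 : ∑ zz, w zz = 1 := by
    have := hprod μ
    rw [hμ1, one_pow] at this
    exact this.symm
  -- good tuples
  set g : X → (Fin r → Y) → ℝ := fun x zz => if ∀ l, κ * R ≤ |M x (zz l)| then 1 else 0 with hg
  set G : (Fin r → Y) → ℝ := fun zz => ∑ x, ν x * g x zz with hG
  have hr0 : 0 ≤ r * η := by
    apply mul_nonneg (by positivity)
    refine le_trans ?_ hη
    apply sum_nonneg; intro x _; apply sum_nonneg; intro y _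
    apply mul_nonneg (mul_nonneg (hν x) (hμ y))
    split_ifs <;> norm_num
  -- the expectation of `G`
  have hEG : 1 - r * η ≤ ∑ zz, w zz * G zz := by
    have h1 : ∑ zz, w zz * G zz = ∑ x, ν x * (∑ y, μ y * (if κ * R ≤ |M x y| then 1 else 0)) ^ r := by
      simp only [hG, mul_sum]
      rw [sum_comm]
      apply sum_congr rfl
      intro x _
      rw [hprod, mul_sum]
      apply sum_congr rfl
      intro zz _
      have h2 : g x zz = ∏ l, (if κ * R ≤ |M x (zz l)| then (1 : ℝ) else 0) := by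
        simp only [hg]
        by_cases h : ∀ l, κ * R ≤ |M x (zz l)|
        · rw [if_pos h]
          symm
          apply prod_eq_one
          intro l _
          rw [if_pos (h l)]
        · rw [if_neg h]
          push Not at h
          obtain ⟨l, hl⟩ := h
          symm
          apply prod_eq_zero (mem_univ l)
          rw [if_neg (not_le.mpr hl)]
      rw [h2, hw, prod_mul_distrib]
      ring
    rw [h1]
    have h3 : ∀ x, 1 - r * (∑ y, μ y * (if |M x y| < κ * R then 1 else 0)) ≤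
        (∑ y, μ y * (if κ * R ≤ |M x y| then 1 else 0)) ^ r := by
      intro x
      set q := ∑ y, μ y * (if |M x y| < κ * R then (1 : ℝ) else 0) with hq
      have h4 : ∑ y, μ y * (if κ * R ≤ |M x y| then (1 : ℝ) else 0) = 1 - q := by
        rw [hq, hcomp]
        apply sum_congr rfl
        intro y _
        by_cases h : κ * R ≤ |M x y|
        · rw [if_pos h, if_neg (not_lt.mpr h)]; ring
        · rw [if_neg h, if_pos (not_le.mp h)]; ring
      rw [h4]
      have hq1 : q ≤ 1 := by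
        have h9 : 0 ≤ 1 - q := by
          rw [← h4]
          apply sum_nonneg
          intro y _
          apply mul_nonneg (hμ y)
          split_ifs <;> norm_num
        linarith
      have h5 := one_add_mul_le_pow (show (-2 : ℝ) ≤ -q by linarith) r
      calc 1 - r * q = 1 + r * (-q) := by ring
        _ ≤ (1 + -q) ^ r := h5
        _ = _ := by ring
    calc 1 - r * η ≤ 1 - r * ∑ x, ∑ y, ν x * μ y * (if |M x y| < κ * R then 1 else 0) := by
          apply sub_le_sub_left
          exact mul_le_mul_of_nonneg_left hη (by positivity)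
      _ = ∑ x, ν x * (1 - r * (∑ y, μ y * (if |M x y| < κ * R then 1 else 0))) := by
          rw [hcompν]
          congr 1
          rw [mul_sum]
          apply sum_congr rfl
          intro x _
          simp only [mul_sum]
          apply sum_congr rfl
          intro y _
          ring
      _ ≤ _ := sum_le_sum fun x _ => mul_le_mul_of_nonneg_left (h3 x) (hν x)
  -- second moment
  have hEG2 : (1 - r * η) ^ 2 ≤ ∑ zz, w zz * G zz ^ 2 := by
    have h1 : (∑ zz, w zz * G zz) ^ 2 ≤ ∑ zz, w zz * G zz ^ 2 := by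
      have h2 := sum_mul_sq_le_sq_mul_sq (univ : Finset (Fin r → Y)) (fun zz => √(w zz))
        (fun zz => √(w zz) * G zz)
      have h3 : ∀ zz, √(w zz) * (√(w zz) * G zz) = w zz * G zz := by
        intro zz
        rw [← mul_assoc, Real.mul_self_sqrt (hw0 zz)]
      have h4 : ∀ zz, (√(w zz)) ^ 2 = w zz := fun zz => Real.sq_sqrt (hw0 zz)
      have h5 : ∀ zz, (√(w zz) * G zz) ^ 2 = w zz * G zz ^ 2 := by
        intro zz
        rw [mul_pow, h4]
      simp only [h3, h4, h5, hw1, one_mul] at h2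
      exact h2
    refine le_trans ?_ h1
    apply pow_le_pow_left₀ (by linarith) hEG
  -- pigeonhole for a fixed tuple
  have hkey : ∀ zz : Fin r → Y, G zz ^ 2 / (r + 1) ^ ⌊1 / κ ^ 2⌋₊ ≤
      ∑ x, ∑ x', ν x * ν x' * ∏ l, (if (0 ≤ M x (zz l) ↔ 0 ≤ M x' (zz l)) then (1 : ℝ) else 0) := by
    intro zz
    set pat : X → Finset (Fin r) := fun x => univ.filter (fun l => 0 ≤ M x (zz l)) with hpat
    set good : Finset X := univ.filter (fun x => ∀ l, κ * R ≤ |M x (zz l)|) with hgood
    set 𝒜 : Finset (Finset (Fin r)) := good.image pat with h𝒜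
    have hcard : #𝒜 ≤ (r + 1) ^ ⌊1 / κ ^ 2⌋₊ := by
      apply card_patterns_le (fun l => b (zz l)) hR hκ (fun l => hb _)
      intro P hP
      simp only [h𝒜, mem_image, hgood, mem_filter, mem_univ, true_and] at hP
      obtain ⟨x, hx, rfl⟩ := hP
      refine ⟨a x, ha x, fun l => ⟨fun hl => ?_, fun hl => ?_⟩⟩
      · simp only [hpat, mem_filter, mem_univ, true_and] at hl
        have := hx l
        rwa [abs_of_nonneg hl] at this
      · simp only [hpat, mem_filter, mem_univ, true_and, not_le] at hl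
        have := hx l
        rw [abs_of_neg hl] at this
        have h9 : ∑ i, a x i * b (zz l) i = M x (zz l) := rfl
        rw [h9]
        linarith
    have hGg : G zz = ∑ P ∈ 𝒜, ∑ x ∈ good with pat x = P, ν x := by
      rw [sum_fiberwise_of_maps_to (fun x hx => mem_image_of_mem _ hx)]
      simp only [hG, hg, hgood, sum_filter, mul_ite, mul_one, mul_zero]
    have hsq := sq_sum_le_card_mul_sum_sq (s := 𝒜)
      (f := fun P => ∑ x ∈ good with pat x = P, ν x)
    rw [← hGg] at hsq
    have hC : (0 : ℝ) < (r + 1) ^ ⌊1 / κ ^ 2⌋₊ := by positivity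
    rw [div_le_iff₀ hC]
    have hS0 : 0 ≤ ∑ P ∈ 𝒜, (∑ x ∈ good with pat x = P, ν x) ^ 2 :=
      sum_nonneg fun P _ => sq_nonneg _
    have hcard' : (#𝒜 : ℝ) ≤ (r + 1) ^ ⌊1 / κ ^ 2⌋₊ := by exact_mod_cast hcard
    have h6 : ∑ P ∈ 𝒜, (∑ x ∈ good with pat x = P, ν x) ^ 2 ≤
        ∑ x, ∑ x', ν x * ν x' * ∏ l, (if (0 ≤ M x (zz l) ↔ 0 ≤ M x' (zz l)) then (1 : ℝ) else 0) := by
      have h7 : ∀ x x', (∏ l, (if (0 ≤ M x (zz l) ↔ 0 ≤ M x' (zz l)) then (1 : ℝ) else 0)) =
          if pat x = pat x' then 1 else 0 := by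
        intro x x'
        by_cases h : pat x = pat x'
        · rw [if_pos h]
          apply prod_eq_one
          intro l _
          rw [if_pos]
          have : l ∈ pat x ↔ l ∈ pat x' := by rw [h]
          simpa [hpat] using this
        · rw [if_neg h]
          have : ∃ l, ¬ (0 ≤ M x (zz l) ↔ 0 ≤ M x' (zz l)) := by
            by_contra hcon
            push Not at hcon
            apply h
            ext l
            simp only [hpat, mem_filter, mem_univ, true_and]
            by_contra h8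
            exact absurd (hcon l) (by tauto)
          obtain ⟨l, hl⟩ := this
          apply prod_eq_zero (mem_univ l)
          rw [if_neg hl]
      simp_rw [h7]
      calc ∑ P ∈ 𝒜, (∑ x ∈ good with pat x = P, ν x) ^ 2
          = ∑ P ∈ 𝒜, ∑ x ∈ good with pat x = P, ν x * ∑ x' ∈ good with pat x' = P, ν x' := by
            apply sum_congr rfl
            intro P _
            rw [sq, sum_mul]
        _ = ∑ P ∈ 𝒜, ∑ x ∈ good with pat x = P, ν x * ∑ x' ∈ good with pat x' = pat x, ν x' := by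
            apply sum_congr rfl
            intro P _
            apply sum_congr rfl
            intro x hx
            rw [(mem_filter.mp hx).2]
        _ = ∑ x ∈ good, ν x * ∑ x' ∈ good with pat x' = pat x, ν x' :=
            sum_fiberwise_of_maps_to (fun x hx => mem_image_of_mem _ hx) _
        _ ≤ ∑ x ∈ good, ν x * ∑ x', ν x' * (if pat x = pat x' then 1 else 0) := by
            apply sum_le_sum
            intro x _
            apply mul_le_mul_of_nonneg_left _ (hν x)
            simp only [mul_ite, mul_one, mul_zero]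
            rw [← sum_filter]
            apply sum_le_sum_of_subset_of_nonneg
            · intro x' hx'
              simp only [mem_filter, mem_univ, true_and] at hx' ⊢
              exact hx'.2.symm
            · intro x' _ _
              exact hν x'
        _ ≤ ∑ x, ν x * ∑ x', ν x' * (if pat x = pat x' then 1 else 0) := by
            apply sum_le_sum_of_subset_of_nonneg (subset_univ _)
            intro x _ _
            apply mul_nonneg (hν x)
            apply sum_nonneg
            intro x' _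
            apply mul_nonneg (hν x')
            split_ifs <;> norm_num
        _ = _ := by
            apply sum_congr rfl
            intro x _
            rw [mul_sum]
            apply sum_congr rfl
            intro x' _
            ring
    nlinarith
  -- conclusion
  have hlast : ∑ zz, w zz * ∑ x, ∑ x', ν x * ν x' *
      ∏ l, (if (0 ≤ M x (zz l) ↔ 0 ≤ M x' (zz l)) then (1 : ℝ) else 0) =
      ∑ x, ∑ x', ν x * ν x' * (1 - ∑ y, μ y *
        (if (0 ≤ M x y ↔ 0 ≤ M x' y) then 0 else 1)) ^ r := by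
    simp only [mul_sum]
    rw [sum_comm]
    apply sum_congr rfl
    intro x _
    rw [sum_comm]
    apply sum_congr rfl
    intro x' _
    have h1 : 1 - ∑ y, μ y * (if (0 ≤ M x y ↔ 0 ≤ M x' y) then (0 : ℝ) else 1) =
        ∑ y, μ y * (if (0 ≤ M x y ↔ 0 ≤ M x' y) then (1 : ℝ) else 0) := by
      rw [hcomp]
      apply sum_congr rfl
      intro y _
      split_ifs <;> ring
    rw [h1, hprod, mul_sum]
    apply sum_congr rfl
    intro zz _
    rw [prod_mul_distrib, hw]
    ring
  calc (1 - r * η) ^ 2 / (r + 1) ^ ⌊1 / κ ^ 2⌋₊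
      ≤ (∑ zz, w zz * G zz ^ 2) / (r + 1) ^ ⌊1 / κ ^ 2⌋₊ := by gcongr
    _ = ∑ zz, w zz * (G zz ^ 2 / (r + 1) ^ ⌊1 / κ ^ 2⌋₊) := by
        rw [sum_div]
        exact sum_congr rfl fun zz _ => by ring
    _ ≤ _ := sum_le_sum fun zz _ => mul_le_mul_of_nonneg_left (hkey zz) (hw0 zz)
    _ = _ := hlast

end Pool.Agent.Lib.MP_d9d2fc_pr
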