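import Mathlib
import Pool.Agent.Lib.MP_d9d2fc_pr.Patterns

open Finset

namespace Pool.Agent.Lib.MP_d9d2fc_pr

/-- disagreement probability of the sign patterns of two rows -/
noncomputable def disagree {ι X Y : Type*} [Fintype ι] [Fintype Y] (μ : Y → ℝ)
    (a : X → ι → ℝ) (b : Y → ι → ℝ) (x x' : X) : ℝ := by
  classical
  exact ∑ y, μ y * (if (0 ≤ ∑ i, a x i * b y i ↔ 0 ≤ ∑ i, a x' i * b y i) then 0 else 1)

lemma exists_r (D : ℕ) {ε : ℝ} (h0 : 0 < ε) (h1 : ε < 1) :
    ∃ r : ℕ, (1 - ε) ^ r ≤ 1 / 8 / (r + 1) ^ D := by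
  have h2 : Filter.Tendsto (fun n : ℕ => (n : ℝ) ^ D * (1 - ε) ^ n) Filter.atTop (nhds 0) :=
    tendsto_pow_const_mul_const_pow_of_abs_lt_one D (by rw [abs_of_pos] <;> linarith)
  have h3 := (h2.comp (Filter.tendsto_add_atTop_nat 1)).eventually
    (gt_mem_nhds (show (0 : ℝ) < (1 - ε) / 8 by linarith))
  obtain ⟨r, hr⟩ := h3.exists
  refine ⟨r, ?_⟩
  simp only [Function.comp_apply] at hr
  push_cast at hr
  have hε : 0 < 1 - ε := by linarith
  rw [div_div, le_div_iff₀ (by positivity)]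
  rw [pow_succ] at hr
  have : ((r : ℝ) + 1) ^ D * (1 - ε) ^ r * (1 - ε) < 1 / 8 * (1 - ε) := by
    calc ((r : ℝ) + 1) ^ D * (1 - ε) ^ r * (1 - ε) = ((r : ℝ) + 1) ^ D * ((1 - ε) ^ r * (1 - ε)) := by
          ring
      _ < (1 - ε) / 8 := hr
      _ = _ := by ring
  have := lt_of_mul_lt_mul_right this hε.le
  nlinarith

/-- there is a macroscopic class of rows with nearly the same sign pattern -/
lemma exists_class {κ ε : ℝ} (hκ : 0 < κ) (h0 : 0 < ε) (h1 : ε < 1) :
    ∃ c > 0, ∃ η > 0, ∀ {ι X Y : Type} [Fintype ι] [Fintype X] [Fintype Y]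
      (ν : X → ℝ) (μ : Y → ℝ), (∀ x, 0 ≤ ν x) → (∀ y, 0 ≤ μ y) →
      ∑ x, ν x = 1 → ∑ y, μ y = 1 →
      ∀ (a : X → ι → ℝ) (b : Y → ι → ℝ) (R : ℝ), 0 < R →
      (∀ x, ∑ i, a x i ^ 2 ≤ R) → (∀ y, ∑ i, b y i ^ 2 ≤ R) →
      (∑ x, ∑ y, ν x * μ y * (if |∑ i, a x i * b y i| < κ * R then 1 else 0) ≤ η) →
      ∃ x₀, c ≤ ∑ x with disagree μ a b x₀ x ≤ ε, ν x := by
  obtain ⟨r, hr⟩ := exists_r ⌊1 / κ ^ 2⌋₊ h0 h1
  refine ⟨1 / 8 / (r + 1) ^ ⌊1 / κ ^ 2⌋₊, by positivity, 1 / (2 * (r + 1)), by positivity, ?_⟩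
  intro ι X Y _ _ _ ν μ hν hμ hν1 hμ1 a b R hR ha hb hη
  classical
  have hrη : (r : ℝ) * (1 / (2 * (r + 1))) ≤ 1 / 2 := by
    rw [mul_one_div, div_le_div_iff₀ (by positivity) (by positivity)]
    nlinarith
  have hb1 := same_pattern_bound ν μ hν hμ hν1 hμ1 a b hR hκ ha hb hη r (by linarith)
  have hb2 : ∑ x, ∑ x', ν x * ν x' * (1 - disagree μ a b x x') ^ r =
      ∑ x, ν x * ∑ x', ν x' * (1 - disagree μ a b x x') ^ r := by
    apply sum_congr rfl; intro x _
    rw [mul_sum]
    apply sum_congr rfl; intro x' _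
    ring
  have hd : ∀ x x', disagree μ a b x x' = ∑ y, μ y *
        (if (0 ≤ ∑ i, a x i * b y i ↔ 0 ≤ ∑ i, a x' i * b y i) then 0 else 1) := by
    intro x x'
    unfold disagree
    apply sum_congr rfl; intro y _
    congr
  have hb3 : 1 / 4 / (r + 1) ^ ⌊1 / κ ^ 2⌋₊ ≤
      ∑ x, ν x * ∑ x', ν x' * (1 - disagree μ a b x x') ^ r := by
    rw [← hb2]
    simp_rw [hd]
    refine le_trans ?_ hb1
    apply div_le_div_of_nonneg_right _ (by positivity)
    nlinarith
  -- some row does at least as well as the average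
  obtain ⟨x₀, hx₀⟩ : ∃ x₀, 1 / 4 / (r + 1) ^ ⌊1 / κ ^ 2⌋₊ ≤
      ∑ x', ν x' * (1 - disagree μ a b x₀ x') ^ r := by
    by_contra hcon
    push Not at hcon
    have h5 : ∑ x, ν x * ∑ x', ν x' * (1 - disagree μ a b x x') ^ r <
        ∑ x, ν x * (1 / 4 / (r + 1) ^ ⌊1 / κ ^ 2⌋₊) := by
      apply sum_lt_sum
      · intro x _
        exact mul_le_mul_of_nonneg_left (hcon x).le (hν x)
      · by_contra hcon2
        push Not at hcon2
        have h6 : ∀ x, ν x = 0 := by
          intro x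
          have h7 := hcon2 x (mem_univ x)
          by_contra h8
          have h9 : 0 < ν x := lt_of_le_of_ne (hν x) (Ne.symm h8)
          have := mul_lt_mul_of_pos_left (hcon x) h9
          linarith
        simp [h6] at hν1
    rw [← sum_mul, hν1, one_mul] at h5
    linarith
  refine ⟨x₀, ?_⟩
  have hd0 : ∀ x, 0 ≤ disagree μ a b x₀ x := by
    intro x
    rw [hd]
    apply sum_nonneg; intro y _
    apply mul_nonneg (hμ y)
    split_ifs <;> norm_num
  have hd1 : ∀ x, disagree μ a b x₀ x ≤ 1 := by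
    intro x
    rw [hd]
    refine le_trans (sum_le_sum fun y _ => ?_) hμ1.le
    have := hμ y
    split_ifs <;> simp [this]
  have h10 : ∑ x', ν x' * (1 - disagree μ a b x₀ x') ^ r ≤
      (∑ x with disagree μ a b x₀ x ≤ ε, ν x) + (1 - ε) ^ r := by
    have h11 : (1 - ε) ^ r = ∑ x, ν x * (1 - ε) ^ r := by
      rw [← sum_mul, hν1, one_mul]
    rw [h11, sum_filter, ← sum_add_distrib]
    apply sum_le_sum
    intro x _
    have hε : 0 ≤ (1 - ε) ^ r := pow_nonneg (by linarith) r
    by_cases hx : disagree μ a b x₀ x ≤ ε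
    · rw [if_pos hx]
      have : (1 - disagree μ a b x₀ x) ^ r ≤ 1 :=
        pow_le_one₀ (by linarith [hd1 x]) (by linarith [hd0 x])
      nlinarith [hν x, mul_nonneg (hν x) hε]
    · rw [if_neg hx, zero_add]
      push Not at hx
      apply mul_le_mul_of_nonneg_left _ (hν x)
      exact pow_le_pow_left₀ (by linarith [hd1 x]) (by linarith) r
  have h12 : (1 : ℝ) / 4 / (r + 1) ^ ⌊1 / κ ^ 2⌋₊ = 1 / 8 / (r + 1) ^ ⌊1 / κ ^ 2⌋₊ +
      1 / 8 / (r + 1) ^ ⌊1 / κ ^ 2⌋₊ := by ring
  linarith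

/-- rounding a `[-1,1]`-valued vector to signs -/
lemma exists_rounding {ι Y : Type*} [Fintype Y] [DecidableEq ι] (μ : Y → ℝ)
    (hμ : ∀ y, 0 ≤ μ y) (hμ1 : ∑ y, μ y = 1) (b : Y → ι → ℝ) (hb : ∀ y i, b y i ^ 2 ≤ 1)
    (w : ι → ℝ) (hw : ∀ i, |w i| ≤ 1) (S : Finset ι) :
    ∃ t : ι → Bool, ∑ y, μ y * (∑ i ∈ S, ((if t i then (1 : ℝ) else -1) - w i) * b y i) ^ 2 ≤ #S := by
  induction S using Finset.induction_on with
  | empty => exact ⟨fun _ => true, by simp⟩
  | insert a S ha ih =>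
    obtain ⟨t, ht⟩ := ih
    set A : Y → ℝ := fun y => ∑ i ∈ S, ((if t i then (1 : ℝ) else -1) - w i) * b y i with hA
    set C := ∑ y, μ y * (A y * b y a) with hC
    set B := ∑ y, μ y * b y a ^ 2 with hB
    have hB1 : B ≤ 1 := by
      rw [hB, ← hμ1]
      apply sum_le_sum; intro y _
      have := mul_le_mul_of_nonneg_left (hb y a) (hμ y)
      linarith
    have hB0 : 0 ≤ B := sum_nonneg fun y _ => mul_nonneg (hμ y) (sq_nonneg _)
    have hexp : ∀ s : ℝ, ∑ y, μ y * (A y + (s - w a) * b y a) ^ 2 =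
        ∑ y, μ y * A y ^ 2 + 2 * (s - w a) * C + (s - w a) ^ 2 * B := by
      intro s
      rw [hC, hB, mul_sum, mul_sum, ← sum_add_distrib, ← sum_add_distrib]
      exact sum_congr rfl fun y _ => by ring
    have hcard : ((#(insert a S) : ℕ) : ℝ) = #S + 1 := by
      rw [card_insert_of_notMem ha]; push_cast; ring
    have hstep : ∀ (bb : Bool) , ∑ y, μ y * (∑ i ∈ insert a S,
        ((if Function.update t a bb i then (1 : ℝ) else -1) - w i) * b y i) ^ 2 =
        ∑ y, μ y * (A y + ((if bb then (1 : ℝ) else -1) - w a) * b y a) ^ 2 := by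
      intro bb
      apply sum_congr rfl; intro y _
      congr 2
      rw [sum_insert ha, add_comm]
      congr 1
      · apply sum_congr rfl; intro i hi
        have hia : i ≠ a := fun h => ha (h ▸ hi)
        rw [Function.update_of_ne hia]
      · rw [Function.update_self]
    have hwa := abs_le.mp (hw a)
    have havg : (1 + w a) / 2 * (2 * (1 - w a) * C + (1 - w a) ^ 2 * B) +
        (1 - w a) / 2 * (2 * (-1 - w a) * C + (-1 - w a) ^ 2 * B) = (1 - w a ^ 2) * B := by ring
    by_cases hp : 2 * (1 - w a) * C + (1 - w a) ^ 2 * B ≤ 1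
    · refine ⟨Function.update t a true, ?_⟩
      rw [hstep true, if_pos rfl, hexp, hcard]
      linarith
    · have hm : 2 * (-1 - w a) * C + (-1 - w a) ^ 2 * B ≤ 1 := by
        by_contra hcon
        push Not at hp hcon
        have h1 : (1 - w a ^ 2) * B ≤ 1 := by nlinarith [sq_nonneg (w a)]
        have h2 : 1 < (1 + w a) / 2 * (2 * (1 - w a) * C + (1 - w a) ^ 2 * B) +
            (1 - w a) / 2 * (2 * (-1 - w a) * C + (-1 - w a) ^ 2 * B) := by
          rcases lt_or_ge (w a) 1 with h3 | h3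
          · have h4 : 0 ≤ (1 + w a) / 2 * (2 * (1 - w a) * C + (1 - w a) ^ 2 * B - 1) :=
              mul_nonneg (by linarith) (by linarith)
            have h5 : 0 < (1 - w a) / 2 * (2 * (-1 - w a) * C + (-1 - w a) ^ 2 * B - 1) :=
              mul_pos (by linarith) (by linarith)
            linarith
          · have h6 : w a = 1 := by linarith
            rw [h6] at hp
            norm_num at hp
        linarith
      refine ⟨Function.update t a false, ?_⟩
      rw [hstep false, hexp, hcard]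
      simp only [Bool.false_eq_true, if_false]
      linarith

/-- second moment of signed centred membership sums under independent thinning -/
lemma second_moment {ι : Type*} [DecidableEq ι] (ρ : ℝ) (σ : ι → ℝ) (S : Finset ι) :
    ∀ c : ℝ, ∑ A ∈ S.powerset, ρ ^ #A * (1 - ρ) ^ (#S - #A) *
      (c + ∑ i ∈ S, σ i * ((if i ∈ A then 1 else 0) - ρ)) ^ 2 =
      c ^ 2 + ∑ i ∈ S, σ i ^ 2 * (ρ * (1 - ρ)) := by
  induction S using Finset.induction_on with
  | empty => intro c; simp
  | insert a S ha ih =>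
    intro c
    rw [sum_powerset_insert ha, sum_insert ha]
    have h1 : ∑ A ∈ S.powerset, ρ ^ #A * (1 - ρ) ^ (#(insert a S) - #A) *
        (c + ∑ i ∈ insert a S, σ i * ((if i ∈ A then 1 else 0) - ρ)) ^ 2 =
        (1 - ρ) * ∑ A ∈ S.powerset, ρ ^ #A * (1 - ρ) ^ (#S - #A) *
        ((c - σ a * ρ) + ∑ i ∈ S, σ i * ((if i ∈ A then 1 else 0) - ρ)) ^ 2 := by
      rw [mul_sum]
      apply sum_congr rfl
      intro A hA
      have hAS := mem_powerset.mp hA
      have haA : a ∉ A := fun h => ha (hAS h)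
      have hcard : #(insert a S) - #A = (#S - #A) + 1 := by
        rw [card_insert_of_notMem ha]
        have := card_le_card hAS
        omega
      rw [hcard, pow_succ, sum_insert ha, if_neg haA]
      ring
    have h2 : ∑ A ∈ S.powerset, ρ ^ #(insert a A) * (1 - ρ) ^ (#(insert a S) - #(insert a A)) *
        (c + ∑ i ∈ insert a S, σ i * ((if i ∈ insert a A then 1 else 0) - ρ)) ^ 2 =
        ρ * ∑ A ∈ S.powerset, ρ ^ #A * (1 - ρ) ^ (#S - #A) *
        ((c + σ a * (1 - ρ)) + ∑ i ∈ S, σ i * ((if i ∈ A then 1 else 0) - ρ)) ^ 2 := by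
      rw [mul_sum]
      apply sum_congr rfl
      intro A hA
      have hAS := mem_powerset.mp hA
      have haA : a ∉ A := fun h => ha (hAS h)
      rw [card_insert_of_notMem ha, card_insert_of_notMem haA, Nat.add_sub_add_right,
        sum_insert ha, if_pos (mem_insert_self a A), pow_succ]
      have h3 : ∑ i ∈ S, σ i * ((if i ∈ insert a A then (1 : ℝ) else 0) - ρ) =
          ∑ i ∈ S, σ i * ((if i ∈ A then 1 else 0) - ρ) := by
        apply sum_congr rfl
        intro i hi
        have hia : i ≠ a := fun h => ha (h ▸ hi)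
        simp [mem_insert, hia]
      rw [h3]
      ring
    rw [h1, h2, ih, ih]
    ring

/-- weights of the independent thinning with retention probability `ρ` -/
noncomputable def thin {ι : Type*} [Fintype ι] (ρ : ℝ) (A : Finset ι) : ℝ :=
  ρ ^ #A * (1 - ρ) ^ (Fintype.card ι - #A)

lemma thin_nonneg {ι : Type*} [Fintype ι] {ρ : ℝ} (h0 : 0 ≤ ρ) (h1 : ρ ≤ 1) (A : Finset ι) :
    0 ≤ thin ρ A := mul_nonneg (pow_nonneg h0 _) (pow_nonneg (by linarith) _)

lemma sum_thin {ι : Type*} [Fintype ι] (ρ : ℝ) : ∑ A : Finset ι, thin ρ A = 1 := by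
  unfold thin
  rw [← card_univ, ← powerset_univ, Finset.sum_pow_mul_eq_add_pow]
  simp

lemma thin_second_moment {ι : Type*} [Fintype ι] [DecidableEq ι] (ρ : ℝ) (σ : ι → ℝ) :
    ∑ A : Finset ι, thin ρ A * (∑ i, σ i * ((if i ∈ A then 1 else 0) - ρ)) ^ 2 =
      ∑ i, σ i ^ 2 * (ρ * (1 - ρ)) := by
  have h := second_moment ρ σ (univ : Finset ι) 0
  simp only [powerset_univ, zero_add, card_univ] at h
  unfold thin
  rw [h]; ring

/-- for an event of the thinning, membership of a typical point is nearly independent of it -/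
lemma sum_abs_cov_le {ι : Type*} [Fintype ι] [DecidableEq ι] {ρ : ℝ} (h0 : 0 ≤ ρ) (h1 : ρ ≤ 1)
    (E : Finset (Finset ι)) :
    ∑ i, |∑ A ∈ E, thin ρ A * ((if i ∈ A then 1 else 0) - ρ)| ≤ √(Fintype.card ι) := by
  set cv : ι → ℝ := fun i => ∑ A ∈ E, thin ρ A * ((if i ∈ A then 1 else 0) - ρ) with hcv
  set σ : ι → ℝ := fun i => if 0 ≤ cv i then 1 else -1 with hσ
  have hσ2 : ∀ i, σ i ^ 2 = 1 := by intro i; simp only [hσ]; split_ifs <;> norm_num
  have h2 : ∑ i, |cv i| = ∑ A ∈ E, thin ρ A * ∑ i, σ i * ((if i ∈ A then 1 else 0) - ρ) := by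
    have h3 : ∀ i, |cv i| = σ i * cv i := by
      intro i
      simp only [hσ]
      split_ifs with h
      · rw [abs_of_nonneg h, one_mul]
      · rw [abs_of_neg (not_le.mp h)]; ring
    simp_rw [h3, hcv, mul_sum]
    rw [sum_comm]
    apply sum_congr rfl; intro A _
    apply sum_congr rfl; intro i _
    ring
  have h4 : (∑ A ∈ E, thin ρ A * ∑ i, σ i * ((if i ∈ A then 1 else 0) - ρ)) ^ 2 ≤
      (∑ A ∈ E, √(thin ρ A) ^ 2) *
      ∑ A ∈ E, (√(thin ρ A) * ∑ i, σ i * ((if i ∈ A then 1 else 0) - ρ)) ^ 2 := by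
    have h5 := sum_mul_sq_le_sq_mul_sq E (fun A => √(thin ρ A))
      (fun A => √(thin ρ A) * ∑ i, σ i * ((if i ∈ A then 1 else 0) - ρ))
    have h6 : ∀ A : Finset ι, √(thin ρ A) * (√(thin ρ A) *
        ∑ i, σ i * ((if i ∈ A then 1 else 0) - ρ)) =
        thin ρ A * ∑ i, σ i * ((if i ∈ A then 1 else 0) - ρ) := by
      intro A
      rw [← mul_assoc, Real.mul_self_sqrt (thin_nonneg h0 h1 A)]
    simp only [h6] at h5
    exact h5
  have h7 : ∑ A ∈ E, √(thin ρ A) ^ 2 ≤ 1 := by
    rw [← sum_thin (ι := ι) ρ]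
    calc ∑ A ∈ E, √(thin ρ A) ^ 2 = ∑ A ∈ E, thin ρ A :=
          sum_congr rfl fun A _ => Real.sq_sqrt (thin_nonneg h0 h1 A)
      _ ≤ ∑ A, thin ρ A :=
          sum_le_sum_of_subset_of_nonneg (subset_univ _) fun A _ _ => thin_nonneg h0 h1 A
  have h8 : ∑ A ∈ E, (√(thin ρ A) * ∑ i, σ i * ((if i ∈ A then 1 else 0) - ρ)) ^ 2 ≤
      Fintype.card ι := by
    calc ∑ A ∈ E, (√(thin ρ A) * ∑ i, σ i * ((if i ∈ A then 1 else 0) - ρ)) ^ 2
        = ∑ A ∈ E, thin ρ A * (∑ i, σ i * ((if i ∈ A then 1 else 0) - ρ)) ^ 2 :=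
          sum_congr rfl fun A _ => by rw [mul_pow, Real.sq_sqrt (thin_nonneg h0 h1 A)]
      _ ≤ ∑ A, thin ρ A * (∑ i, σ i * ((if i ∈ A then 1 else 0) - ρ)) ^ 2 :=
          sum_le_sum_of_subset_of_nonneg (subset_univ _) fun A _ _ =>
            mul_nonneg (thin_nonneg h0 h1 A) (sq_nonneg _)
      _ = ∑ i, σ i ^ 2 * (ρ * (1 - ρ)) := thin_second_moment ρ σ
      _ ≤ ∑ i : ι, 1 := by
          apply sum_le_sum; intro i _
          rw [hσ2]; nlinarith
      _ = _ := by simp
  rw [h2]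
  apply Real.le_sqrt_of_sq_le
  refine h4.trans ?_
  calc _ ≤ 1 * (Fintype.card ι : ℝ) := by
        apply mul_le_mul h7 h8 _ zero_le_one
        exact sum_nonneg fun A _ => sq_nonneg _
    _ = _ := one_mul _

/-- the sign of a label -/
noncomputable def sg (b : Bool) : ℝ := if b then 1 else -1

lemma sg_sq (b : Bool) : sg b ^ 2 = 1 := by cases b <;> simp [sg]

lemma abs_sg (b : Bool) : |sg b| = 1 := by cases b <;> simp [sg]

/-- **Finite lemma.**  If (under a prior `μ` on labellings of a finite set `ι` and an independent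
thinning `A`) the labellings `v A` of the thinned sets have overlap at least `κ |ι|` with the truth,
up to probability `η`, then a single labelling of all of `ι` has overlap at least `γ |ι|` with the
truth with `μ`-probability at least `1 - ε`, for every `γ < κ / ρ`. -/
lemma finite_lemma {ρ κ γ ε : ℝ} (hρ0 : 0 < ρ) (hρ1 : ρ ≤ 1) (hκ : 0 < κ) (hγ : γ < κ / ρ)
    (hε : 0 < ε) :
    ∃ η > 0, ∃ N₀ : ℕ, ∀ (ι : Type) [Fintype ι] [DecidableEq ι], N₀ ≤ Fintype.card ι →
      ∀ μ : (ι → Bool) → ℝ, (∀ z, 0 ≤ μ z) → ∑ z, μ z = 1 →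
      ∀ v : Finset ι → ι → ℝ, (∀ A i, |v A i| ≤ 1) → (∀ A i, i ∉ A → v A i = 0) →
      (∑ A, ∑ z, thin ρ A * μ z *
        (if |∑ i, v A i * sg (z i)| < κ * Fintype.card ι then 1 else 0) ≤ η) →
      ∃ t : ι → Bool, 1 - ε ≤
        ∑ z, μ z * (if γ * Fintype.card ι ≤ |∑ i, sg (t i) * sg (z i)| then 1 else 0) := by
  classical
  -- constants
  set θ : ℝ := (κ / ρ - γ) / ((1 + κ) / ρ + 2) with hθdef
  have hden : 0 < (1 + κ) / ρ + 2 := by positivity
  have hθ : 0 < θ := div_pos (by linarith) hden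
  have hθeq : (1 + κ) * θ / ρ + 2 * θ = κ / ρ - γ := by
    have : θ * ((1 + κ) / ρ + 2) = κ / ρ - γ := by rw [hθdef]; field_simp
    rw [← this]; ring
  set ε' : ℝ := min (ε * θ / 3) (1 / 2) with hε'def
  have hε'0 : 0 < ε' := lt_min (by positivity) (by norm_num)
  have hε'1 : ε' < 1 := lt_of_le_of_lt (min_le_right _ _) (by norm_num)
  obtain ⟨c, hc, η₁, hη₁, hclass⟩ := exists_class hκ hε'0 hε'1
  refine ⟨min η₁ (ε * θ * c / 3), lt_min hη₁ (by positivity),
    ⌈max 1 (max (3 / (ε * θ ^ 2)) ((1 / (ρ * c * θ)) ^ 2))⌉₊, ?_⟩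
  intro ι _ _ hN μ hμ hμ1 v hv hv0 hη
  set N : ℝ := (Fintype.card ι : ℝ) with hNdef
  have hNmax : max 1 (max (3 / (ε * θ ^ 2)) ((1 / (ρ * c * θ)) ^ 2)) ≤ N := Nat.ceil_le.mp hN
  have hN1 : 1 ≤ N := (le_max_left _ _).trans hNmax
  have hN2 : 3 / (ε * θ ^ 2) ≤ N := ((le_max_left _ _).trans (le_max_right _ _)).trans hNmax
  have hN3 : (1 / (ρ * c * θ)) ^ 2 ≤ N := ((le_max_right _ _).trans (le_max_right _ _)).trans hNmax
  have hN0 : 0 < N := by linarith
  set M : Finset ι → (ι → Bool) → ℝ := fun A z => ∑ i, v A i * sg (z i) with hM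
  have hMle : ∀ A z, |M A z| ≤ N := by
    intro A z
    calc |M A z| ≤ ∑ i, |v A i * sg (z i)| := abs_sum_le_sum_abs _ _
      _ ≤ ∑ i : ι, 1 := by
          apply sum_le_sum; intro i _
          rw [abs_mul, abs_sg, mul_one]; exact hv A i
      _ = N := by simp [hNdef]
  obtain ⟨A₀, hA₀⟩ := hclass (thin ρ) μ (thin_nonneg hρ0.le hρ1) hμ (sum_thin ρ) hμ1 v
    (fun z i => sg (z i)) N hN0
    (fun A => by
      calc ∑ i, v A i ^ 2 ≤ ∑ i : ι, 1 := by
            apply sum_le_sum; intro i _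
            have := abs_le.mp (hv A i)
            nlinarith
        _ = N := by simp [hNdef])
    (fun z => by simp [sg_sq, hNdef])
    (hη.trans (min_le_left _ _))
  set E : Finset (Finset ι) := univ.filter (fun A => disagree μ v (fun z i => sg (z i)) A₀ A ≤ ε')
    with hE
  set Q : ℝ := ∑ A ∈ E, thin ρ A with hQ
  have hQc : c ≤ Q := hA₀
  have hQ0 : 0 < Q := lt_of_lt_of_le hc hQc
  -- sign of the reference row
  set s : (ι → Bool) → ℝ := fun z => if 0 ≤ M A₀ z then 1 else -1 with hs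
  have hs1 : ∀ z, |s z| = 1 := by intro z; simp only [hs]; split_ifs <;> simp
  set bad : (ι → Bool) → ℝ := fun z => ∑ A ∈ E, thin ρ A *
    ((if (0 ≤ M A₀ z ↔ 0 ≤ M A z) then 0 else 1) + (if |M A z| < κ * N then 1 else 0)) with hbad
  have hbad0 : ∀ z, 0 ≤ bad z := by
    intro z
    apply sum_nonneg; intro A _
    apply mul_nonneg (thin_nonneg hρ0.le hρ1 A)
    split_ifs <;> norm_num
  -- expectation of bad
  have hEbad : ∑ z, μ z * bad z ≤ Q * (ε' + ε * θ / 3) := by
    have h1 : ∑ z, μ z * bad z = ∑ A ∈ E, thin ρ A * disagree μ v (fun z i => sg (z i)) A₀ A +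
        ∑ A ∈ E, ∑ z, thin ρ A * μ z * (if |M A z| < κ * N then 1 else 0) := by
      simp only [hbad, mul_sum]
      rw [sum_comm, ← sum_add_distrib]
      apply sum_congr rfl; intro A _
      unfold disagree
      rw [mul_sum, ← sum_add_distrib]
      apply sum_congr rfl; intro z _
      simp only [hM]
      split_ifs <;> ring
    have h2 : ∑ A ∈ E, thin ρ A * disagree μ v (fun z i => sg (z i)) A₀ A ≤ Q * ε' := by
      rw [hQ, sum_mul]
      apply sum_le_sum; intro A hA
      exact mul_le_mul_of_nonneg_left (mem_filter.mp hA).2 (thin_nonneg hρ0.le hρ1 A)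
    have h3 : ∑ A ∈ E, ∑ z, thin ρ A * μ z * (if |M A z| < κ * N then (1 : ℝ) else 0) ≤
        Q * (ε * θ / 3) := by
      calc _ ≤ ∑ A, ∑ z, thin ρ A * μ z * (if |M A z| < κ * N then (1 : ℝ) else 0) := by
            apply sum_le_sum_of_subset_of_nonneg (subset_univ _)
            intro A _ _
            apply sum_nonneg; intro z _
            apply mul_nonneg (mul_nonneg (thin_nonneg hρ0.le hρ1 A) (hμ z))
            split_ifs <;> norm_num
        _ ≤ ε * θ * c / 3 := hη.trans (min_le_right _ _)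
        _ = c * (ε * θ / 3) := by ring
        _ ≤ Q * (ε * θ / 3) := mul_le_mul_of_nonneg_right hQc (by positivity)
    rw [h1]
    linarith
  -- lower bound for the averaged signed overlap
  have hlow : ∀ z, κ * N * Q - (1 + κ) * N * bad z ≤ s z * ∑ A ∈ E, thin ρ A * M A z := by
    intro z
    have e1 : κ * N * Q = ∑ A ∈ E, κ * N * thin ρ A := by rw [hQ, mul_sum]
    have e2 : (1 + κ) * N * bad z = ∑ A ∈ E, (1 + κ) * N * (thin ρ A *
        ((if (0 ≤ M A₀ z ↔ 0 ≤ M A z) then 0 else 1) + (if |M A z| < κ * N then 1 else 0))) := by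
      rw [hbad, mul_sum]
    rw [e1, e2, mul_sum, ← sum_sub_distrib]
    apply sum_le_sum; intro A _
    have ht := thin_nonneg hρ0.le hρ1 A
    have hsM : -N ≤ s z * M A z := by
      have := (abs_le.mp (show |s z * M A z| ≤ N by rw [abs_mul, hs1, one_mul]; exact hMle A z)).1
      exact this
    by_cases h1 : (0 ≤ M A₀ z ↔ 0 ≤ M A z)
    · rw [if_pos h1]
      by_cases h2 : |M A z| < κ * N
      · rw [if_pos h2]
        have : thin ρ A * (-N) ≤ thin ρ A * (s z * M A z) := mul_le_mul_of_nonneg_left hsM ht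
        linarith
      · rw [if_neg h2]
        push Not at h2
        have h3 : s z * M A z = |M A z| := by
          simp only [hs]
          by_cases h4 : 0 ≤ M A₀ z
          · rw [if_pos h4, abs_of_nonneg (h1.mp h4), one_mul]
          · rw [if_neg h4, abs_of_neg (not_le.mp (fun h => h4 (h1.mpr h)))]; ring
        have : thin ρ A * (κ * N) ≤ thin ρ A * (s z * M A z) := by
          rw [h3]; exact mul_le_mul_of_nonneg_left h2 ht
        linarith
    · rw [if_neg h1]
      have h5 : (0 : ℝ) ≤ if |M A z| < κ * N then 1 else 0 := by split_ifs <;> norm_num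
      have h6 : thin ρ A * (-N) ≤ thin ρ A * (s z * M A z) := mul_le_mul_of_nonneg_left hsM ht
      have h7 : 0 ≤ (1 + κ) * N * (thin ρ A * (if |M A z| < κ * N then 1 else 0)) := by positivity
      linarith
  -- the averaged labelling
  set q : ι → ℝ := fun i => ∑ A ∈ E, thin ρ A * (if i ∈ A then 1 else 0) with hq
  set u : ι → ℝ := fun i => ∑ A ∈ E, thin ρ A * v A i with hu
  set w : ι → ℝ := fun i => u i / q i with hw
  have hq0 : ∀ i, 0 ≤ q i := by
    intro i
    apply sum_nonneg; intro A _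
    apply mul_nonneg (thin_nonneg hρ0.le hρ1 A)
    split_ifs <;> norm_num
  have huq : ∀ i, |u i| ≤ q i := by
    intro i
    calc |u i| ≤ ∑ A ∈ E, |thin ρ A * v A i| := abs_sum_le_sum_abs _ _
      _ ≤ q i := by
        apply sum_le_sum; intro A _
        rw [abs_mul, abs_of_nonneg (thin_nonneg hρ0.le hρ1 A)]
        apply mul_le_mul_of_nonneg_left _ (thin_nonneg hρ0.le hρ1 A)
        split_ifs with h
        · exact hv A i
        · rw [hv0 A i h]; simp
  have hw1 : ∀ i, |w i| ≤ 1 := by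
    intro i
    simp only [hw]
    rw [abs_div, abs_of_nonneg (hq0 i)]
    exact div_le_one_of_le₀ (huq i) (hq0 i)
  have hwq : ∀ i, w i * q i = u i := by
    intro i
    by_cases h : q i = 0
    · have : u i = 0 := by
        have := huq i
        rw [h] at this
        exact abs_nonpos_iff.mp this
      rw [h, this, mul_zero]
    · simp only [hw]; field_simp
  have hcov : ∑ i, |q i - ρ * Q| ≤ √N := by
    have h1 := sum_abs_cov_le (ι := ι) hρ0.le hρ1 E
    refine le_trans (le_of_eq ?_) h1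
    apply sum_congr rfl; intro i _
    congr 1
    simp only [hq, hQ, mul_sum]
    rw [← sum_sub_distrib]
    apply sum_congr rfl; intro A _
    ring
  have hsumu : ∀ z, ∑ A ∈ E, thin ρ A * M A z = ∑ i, u i * sg (z i) := by
    intro z
    simp only [hM, hu, mul_sum, sum_mul]
    rw [sum_comm]
    apply sum_congr rfl; intro i _
    apply sum_congr rfl; intro A _
    ring
  have hwu : ∀ z : ι → Bool, |ρ * Q * (∑ i, w i * sg (z i)) - ∑ i, u i * sg (z i)| ≤ √N := by
    intro z
    have h1 : ρ * Q * (∑ i, w i * sg (z i)) - ∑ i, u i * sg (z i) =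
        ∑ i, (-(q i - ρ * Q)) * (w i * sg (z i)) := by
      rw [mul_sum, ← sum_sub_distrib]
      apply sum_congr rfl; intro i _
      rw [← hwq i]; ring
    rw [h1]
    refine (abs_sum_le_sum_abs _ _).trans (le_trans ?_ hcov)
    apply sum_le_sum; intro i _
    rw [abs_mul, abs_neg, abs_mul, abs_sg, mul_one]
    exact mul_le_of_le_one_right (abs_nonneg _) (hw1 i)
  -- rounding
  obtain ⟨t, ht⟩ := exists_rounding μ hμ hμ1 (fun z i => sg (z i))
    (fun z i => (sg_sq (z i)).le) w hw1 (univ : Finset ι)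
  set e : (ι → Bool) → ℝ := fun z => ∑ i, ((if t i then (1 : ℝ) else -1) - w i) * sg (z i) with he
  have hte : ∀ z : ι → Bool, ∑ i, sg (t i) * sg (z i) = (∑ i, w i * sg (z i)) + e z := by
    intro z
    rw [he, ← sum_add_distrib]
    apply sum_congr rfl; intro i _
    simp only [sg]; ring
  have hEe : ∑ z, μ z * e z ^ 2 ≤ N := by
    refine ht.trans ?_
    simp [hNdef]
  refine ⟨t, ?_⟩
  -- failure implies bad or large rounding error
  have hfail : ∀ z, (1 : ℝ) - (bad z / (θ * Q) + e z ^ 2 / (θ * N) ^ 2) ≤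
      (if γ * N ≤ |∑ i, sg (t i) * sg (z i)| then 1 else 0) := by
    intro z
    have hb0 : 0 ≤ bad z / (θ * Q) := div_nonneg (hbad0 z) (by positivity)
    have he0 : 0 ≤ e z ^ 2 / (θ * N) ^ 2 := by positivity
    by_cases h1 : γ * N ≤ |∑ i, sg (t i) * sg (z i)|
    · rw [if_pos h1]; linarith
    · rw [if_neg h1]
      push Not at h1
      by_contra hcon
      push Not at hcon
      have h2 : bad z / (θ * Q) < 1 := by linarith
      have h3 : e z ^ 2 / (θ * N) ^ 2 < 1 := by linarith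
      rw [div_lt_one (by positivity)] at h2 h3
      have h4 : |e z| < θ * N := abs_lt_of_sq_lt_sq h3 (by positivity)
      have h5 := hlow z
      rw [hsumu] at h5
      have h6 : s z * ∑ i, u i * sg (z i) ≤ ρ * Q * |∑ i, w i * sg (z i)| + √N := by
        have h7 := hwu z
        have h8 : s z * ∑ i, u i * sg (z i) ≤ |∑ i, u i * sg (z i)| := by
          calc _ ≤ |s z * ∑ i, u i * sg (z i)| := le_abs_self _
            _ = _ := by rw [abs_mul, hs1, one_mul]
        have h9 : |∑ i, u i * sg (z i)| ≤ |ρ * Q * (∑ i, w i * sg (z i))| +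
            |ρ * Q * (∑ i, w i * sg (z i)) - ∑ i, u i * sg (z i)| := by
          have := abs_sub (ρ * Q * (∑ i, w i * sg (z i)))
            (ρ * Q * (∑ i, w i * sg (z i)) - ∑ i, u i * sg (z i))
          rwa [sub_sub_cancel] at this
        have h10 : |ρ * Q * (∑ i, w i * sg (z i))| = ρ * Q * |∑ i, w i * sg (z i)| := by
          rw [abs_mul, abs_of_pos (by positivity)]
        linarith
      have h11 : |∑ i, w i * sg (z i)| ≤ |∑ i, sg (t i) * sg (z i)| + |e z| := by
        have : ∑ i, w i * sg (z i) = ∑ i, sg (t i) * sg (z i) - e z := by rw [hte z]; ring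
        rw [this]
        exact abs_sub _ _
      -- square root bound
      have h12 : √N ≤ ρ * Q * (θ * N) := by
        have h13 : 1 / (ρ * c * θ) ≤ √N := Real.le_sqrt_of_sq_le hN3
        have h14 : 1 ≤ ρ * c * θ * √N := by
          rw [div_le_iff₀ (by positivity)] at h13
          linarith
        have h15 : √N * √N = N := Real.mul_self_sqrt hN0.le
        calc √N = 1 * √N := (one_mul _).symm
          _ ≤ (ρ * c * θ * √N) * √N := mul_le_mul_of_nonneg_right h14 (Real.sqrt_nonneg _)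
          _ = ρ * c * θ * N := by rw [mul_assoc, h15]
          _ ≤ ρ * Q * θ * N := by gcongr
          _ = _ := by ring
      have h16 : κ * N * Q - (1 + κ) * N * (θ * Q) < ρ * Q * (γ * N + θ * N) + ρ * Q * (θ * N) := by
        have h17 : (1 + κ) * N * bad z < (1 + κ) * N * (θ * Q) :=
          mul_lt_mul_of_pos_left h2 (by positivity)
        have h18 : ρ * Q * |∑ i, w i * sg (z i)| ≤ ρ * Q * (γ * N + θ * N) := by
          apply mul_le_mul_of_nonneg_left _ (by positivity)
          linarith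
        linarith
      have h19 : ρ * Q * (γ * N + θ * N) + ρ * Q * (θ * N) =
          κ * N * Q - (1 + κ) * N * (θ * Q) := by
        have h20 : γ = κ / ρ - ((1 + κ) * θ / ρ + 2 * θ) := by linarith
        rw [h20]
        field_simp
        ring
      linarith
  -- conclusion
  have hμsum : ∑ z, μ z * ((1 : ℝ) - (bad z / (θ * Q) + e z ^ 2 / (θ * N) ^ 2)) =
      1 - ((∑ z, μ z * bad z) / (θ * Q) + (∑ z, μ z * e z ^ 2) / (θ * N) ^ 2) := by
    simp_rw [mul_sub, mul_one, sum_sub_distrib, hμ1, mul_add, sum_add_distrib, sum_div]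
    congr 1
    congr 1 <;> exact sum_congr rfl fun z _ => by ring
  have h21 : (∑ z, μ z * bad z) / (θ * Q) ≤ 2 * ε / 3 := by
    rw [div_le_iff₀ (by positivity)]
    refine hEbad.trans ?_
    have : ε' ≤ ε * θ / 3 := min_le_left _ _
    calc Q * (ε' + ε * θ / 3) ≤ Q * (ε * θ / 3 + ε * θ / 3) := by gcongr
      _ = _ := by ring
  have h22 : (∑ z, μ z * e z ^ 2) / (θ * N) ^ 2 ≤ ε / 3 := by
    rw [div_le_iff₀ (by positivity)]
    refine hEe.trans ?_
    rw [div_le_iff₀ (by positivity)] at hN2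
    calc N = N * 3 / 3 := by ring
      _ ≤ N * (N * (ε * θ ^ 2)) / 3 := by gcongr
      _ = _ := by ring
  calc 1 - ε ≤ 1 - ((∑ z, μ z * bad z) / (θ * Q) + (∑ z, μ z * e z ^ 2) / (θ * N) ^ 2) := by
        linarith
    _ = ∑ z, μ z * ((1 : ℝ) - (bad z / (θ * Q) + e z ^ 2 / (θ * N) ^ 2)) := hμsum.symm
    _ ≤ _ := sum_le_sum fun z _ => mul_le_mul_of_nonneg_left (hfail z) (hμ z)

end Pool.Agent.Lib.MP_d9d2fc_pr
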