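import Mathlib

open MeasureTheory ProbabilityTheory Filter
open scoped NNReal Topology

namespace Pool.Agent.Lib.MP_d9d2fc_pr

/-- The space `ℝ^d` with the Euclidean norm. -/
abbrev Space (d : ℕ) : Type := EuclideanSpace ℝ (Fin d)

/-- The box `B_n = [-n^{1/d}/2, n^{1/d}/2]^d` of volume `n`. -/
def box (d : ℕ) (n : ℝ) : Set (Space d) := {x | ∀ i, |x i| ≤ n ^ (1 / (d : ℝ)) / 2}

/-- The label `+1` is `true` and the label `-1` is `false`. -/
def spin (b : Bool) : ℝ := if b then 1 else -1

/-- A sample with `N` points: the positions, the labels, and one mark for each pair of points. -/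
abbrev Sample (d N : ℕ) : Type :=
  (Fin N → Space d) × (Fin N → Bool) × (Sym2 (Fin N) → ℝ)

/-- The law of a sample given that `N_n = N`: i.i.d. uniform positions in the box `B_n`, i.i.d.
uniform labels, i.i.d. marks that are uniform on `[0,1]`, all independent. -/
noncomputable def sampleLaw (d : ℕ) (n : ℝ) (N : ℕ) : Measure (Sample d N) :=
  (Measure.pi fun _ : Fin N => (volume : Measure (Space d))[|box d n]).prod
    ((Measure.pi fun _ : Fin N => uniformOn (Set.univ : Set Bool)).prod
      (Measure.pi fun _ : Sym2 (Fin N) => (volume : Measure ℝ)[|Set.Icc (0 : ℝ) 1]))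

/-- The graph of a sample: the pair `{i, j}` is an edge when its mark is at most
`f_in(‖X_i - X_j‖)` if the labels agree and at most `f_out(‖X_i - X_j‖)` otherwise. So given
positions and labels, the edges are independent with the prescribed probabilities. -/
def sampleGraph {d N : ℕ} (fin fout : ℝ≥0 → unitInterval) (ω : Sample d N) :
    SimpleGraph (Fin N) where
  Adj i j := i ≠ j ∧ ω.2.2 s(i, j) ≤
    (((if ω.2.1 i = ω.2.1 j then fin else fout) ‖ω.1 i - ω.1 j‖₊ : unitInterval) : ℝ)
  symm := ⟨fun i j h => by
    refine ⟨h.1.symm, ?_⟩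
    have h2 := h.2
    rw [Sym2.eq_swap, ← nnnorm_neg, neg_sub]
    by_cases hz : ω.2.1 i = ω.2.1 j
    · rw [if_pos hz] at h2; rw [if_pos hz.symm]; exact h2
    · rw [if_neg hz] at h2; rw [if_neg (fun h => hz h.symm)]; exact h2⟩
  loopless := ⟨fun _ h => h.1 rfl⟩

/-- An estimator: for each `n`, a measurable map from the observed data (positions and graph of the
`N` points) to labels, which does not depend on how the (distinct) points are numbered. -/
structure Estimator (d : ℕ) where
  /-- the label of point `i` computed from `n`, the positions and the graph -/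
  toFun : ℝ → (N : ℕ) → (Fin N → Space d) → SimpleGraph (Fin N) → Fin N → Bool
  measurable : ∀ n N H, Measurable fun x => toFun n N x H
  equivariant : ∀ n N (π : Equiv.Perm (Fin N)) (x : Fin N → Space d) (H : SimpleGraph (Fin N)),
    Function.Injective x → toFun n N (x ∘ π) (H.comap π) = toFun n N x H ∘ π

/-- The overlap `(1/N) |∑ τ_i Z_i|`, equal to `1` if `N = 0`. -/
noncomputable def overlap {N : ℕ} (t z : Fin N → Bool) : ℝ :=
  if N = 0 then 1 else |∑ i, spin (t i) * spin (z i)| / N

/-- `P[O_n ≥ γ]` at intensity `lam`: the number `N` of points in the box is Poisson with mean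
`lam n`, and given `N` the sample has law `sampleLaw d n N`. -/
noncomputable def probOverlapGe {d : ℕ} (fin fout : ℝ≥0 → unitInterval) (τ : Estimator d)
    (lam n γ : ℝ) : ENNReal :=
  ∫⁻ N, sampleLaw d n N
    {ω | γ ≤ overlap (τ.toFun n N ω.1 (sampleGraph fin fout ω)) ω.2.1}
    ∂(poissonMeasure (lam * n).toNNReal)

/-- `γ(τ) = sup {γ ≥ 0 : lim P[O_n ≥ γ] = 1}`, the limit being along the filter `l`
(`l = atTop` is the limit `n → ∞` over the reals). -/
noncomputable def achieved {d : ℕ} (l : Filter ℝ) (fin fout : ℝ≥0 → unitInterval) (lam : ℝ)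
    (τ : Estimator d) : ℝ :=
  sSup {γ | 0 ≤ γ ∧ Tendsto (fun n => probOverlapGe fin fout τ lam n γ) l (𝓝 1)}

/-- The optimal overlap `O*(lam)`. -/
noncomputable def optOverlap (d : ℕ) (l : Filter ℝ) (fin fout : ℝ≥0 → unitInterval) (lam : ℝ) : ℝ :=
  sSup (Set.range fun τ : Estimator d => achieved l fin fout lam τ)

end Pool.Agent.Lib.MP_d9d2fc_pr
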