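import Mathlib
import Pool.Agent.Lib.MP_d9d2fc_pr.Model

open MeasureTheory ProbabilityTheory Filter
open scoped NNReal Topology

namespace Pool.Agent.Lib.MP_d9d2fc_pr

/-- restricting an i.i.d. family along an injective map gives an i.i.d. family -/
lemma measurePreserving_comp_injective {α β X : Type*} [Fintype α] [Fintype β]
    [MeasurableSpace X] (μ : Measure X) [IsProbabilityMeasure μ] (e : α → β)
    (he : Function.Injective e) :
    MeasurePreserving (fun x : β → X => x ∘ e) (Measure.pi fun _ => μ) (Measure.pi fun _ => μ) := by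
  have hm : Measurable (fun x : β → X => x ∘ e) :=
    measurable_pi_lambda _ fun a => measurable_pi_apply (e a)
  refine ⟨hm, ?_⟩
  symm
  apply Measure.pi_eq
  intro s hs
  rw [Measure.map_apply hm (MeasurableSet.univ_pi hs)]
  have h1 : (fun x : β → X => x ∘ e) ⁻¹' (Set.univ.pi s) =
      Set.univ.pi (fun b => {y | ∀ a, e a = b → y ∈ s a}) := by
    ext x
    simp only [Set.mem_preimage, Set.mem_pi, Set.mem_univ, forall_const, Function.comp_apply,
      Set.mem_ofPred_eq]
    constructor
    · rintro h b a rfl; exact h a
    · intro h a; exact h (e a) a rfl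
  rw [h1, Measure.pi_pi]
  symm
  apply Fintype.prod_of_injective e he
  · intro b hb
    have : {y | ∀ a, e a = b → y ∈ s a} = (Set.univ : Set X) := by
      ext y
      simp only [Set.mem_ofPred_eq, Set.mem_univ, iff_true]
      intro a ha
      exact absurd ⟨a, ha⟩ hb
    rw [this, measure_univ]
  · intro a
    congr 1
    ext y
    simp only [Set.mem_ofPred_eq]
    constructor
    · intro h a' ha'
      rwa [he ha']
    · intro h; exact h a rfl

lemma lintegral_finite_range {Ω T : Type*} [MeasurableSpace Ω] (μ : Measure Ω) [Fintype T]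
    (g : Ω → T) (hg : ∀ t, MeasurableSet {ω | g ω = t}) (F : T → ENNReal) :
    ∫⁻ ω, F (g ω) ∂μ = ∑ t, F t * μ {ω | g ω = t} := by
  classical
  have h1 : ∀ ω, F (g ω) = ∑ t, ({ω | g ω = t}.indicator (fun _ => F t)) ω := by
    intro ω
    rw [Finset.sum_eq_single (g ω)]
    · simp
    · intro t _ ht
      rw [Set.indicator_of_notMem]
      intro h
      exact ht h.symm
    · simp
  simp_rw [h1]
  rw [lintegral_finsetSum]
  · apply Finset.sum_congr rfl
    intro t _
    rw [lintegral_indicator (hg t), setLIntegral_const]
  · intro t _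
    exact measurable_const.indicator (hg t)

instance isProb_unitMark : IsProbabilityMeasure ((volume : Measure ℝ)[|Set.Icc (0 : ℝ) 1]) := by
  apply cond_isProbabilityMeasure_of_finite
  · simp
  · simp

instance isProb_coin : IsProbabilityMeasure (uniformOn (Set.univ : Set Bool)) :=
  isProbabilityMeasure_uniformOn Set.finite_univ Set.univ_nonempty

/-- for `n > 0` (and any `d`), the box has positive finite volume -/
lemma isProb_box (d : ℕ) {n : ℝ} (hn : 0 < n) :
    IsProbabilityMeasure ((volume : Measure (Space d))[|box d n]) := by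
  have hr : 0 < n ^ (1 / (d : ℝ)) / 2 := by positivity
  apply cond_isProbabilityMeasure_of_finite
  · have hopen : IsOpen {x : Space d | ∀ i, |x i| < n ^ (1 / (d : ℝ)) / 2} := by
      simp only [Set.ofPred_forall]
      apply isOpen_iInter_of_finite
      intro i
      exact isOpen_lt (by fun_prop) continuous_const
    have hpos := hopen.measure_pos (volume : Measure (Space d)) ⟨0, by simpa using fun _ => hr⟩
    refine (lt_of_lt_of_le hpos (measure_mono ?_)).ne'
    intro x hx i
    exact (hx i).le
  · apply Bornology.IsBounded.measure_lt_top _ |>.ne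
    rw [isBounded_iff_forall_norm_le]
    refine ⟨√(∑ i : Fin d, (n ^ (1 / (d : ℝ)) / 2) ^ 2), fun x hx => ?_⟩
    rw [EuclideanSpace.norm_eq]
    apply Real.sqrt_le_sqrt
    apply Finset.sum_le_sum
    intro i _
    rw [Real.norm_eq_abs]
    exact pow_le_pow_left₀ (abs_nonneg _) (hx i) 2

section

variable {d N : ℕ} (fin fout : ℝ≥0 → unitInterval)

lemma measurableSet_adj (hin : Measurable fin) (hout : Measurable fout) (i j : Fin N) :
    MeasurableSet {ω : Sample d N | (sampleGraph fin fout ω).Adj i j} := by
  have h1 : {ω : Sample d N | (sampleGraph fin fout ω).Adj i j} =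
      {ω : Sample d N | i ≠ j} ∩
      (({ω : Sample d N | ω.2.1 i = ω.2.1 j} ∩
        {ω : Sample d N | ω.2.2 s(i, j) ≤ (fin ‖ω.1 i - ω.1 j‖₊ : ℝ)}) ∪
      ({ω : Sample d N | ω.2.1 i = ω.2.1 j}ᶜ ∩
        {ω : Sample d N | ω.2.2 s(i, j) ≤ (fout ‖ω.1 i - ω.1 j‖₊ : ℝ)})) := by
    ext ω
    simp only [sampleGraph, Set.mem_ofPred_eq, Set.mem_inter_iff, Set.mem_union, Set.mem_compl_iff]
    by_cases hz : ω.2.1 i = ω.2.1 j
    · simp [hz]
    · simp [hz]
  rw [h1]
  have m0 : Measurable fun ω : Sample d N => ω.2.1 i :=
    (measurable_pi_apply i).comp (measurable_fst.comp measurable_snd)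
  have m1 : Measurable fun ω : Sample d N => ω.2.1 j :=
    (measurable_pi_apply j).comp (measurable_fst.comp measurable_snd)
  have m2 : Measurable fun ω : Sample d N => ω.2.2 s(i, j) :=
    (measurable_pi_apply _).comp (measurable_snd.comp measurable_snd)
  have m3 : Measurable fun ω : Sample d N => ‖ω.1 i - ω.1 j‖₊ :=
    (((measurable_pi_apply i).comp measurable_fst).sub
      ((measurable_pi_apply j).comp measurable_fst)).nnnorm
  refine (MeasurableSet.const _).inter ?_
  have h2 : MeasurableSet {ω : Sample d N | ω.2.1 i = ω.2.1 j} := measurableSet_eq_fun m0 m1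
  exact (h2.inter (measurableSet_le m2 (measurable_subtype_coe.comp (hin.comp m3)))).union
    (h2.compl.inter (measurableSet_le m2 (measurable_subtype_coe.comp (hout.comp m3))))

lemma measurableSet_sampleGraph_eq (hin : Measurable fin) (hout : Measurable fout)
    (H : SimpleGraph (Fin N)) :
    MeasurableSet {ω : Sample d N | sampleGraph fin fout ω = H} := by
  have h1 : {ω : Sample d N | sampleGraph fin fout ω = H} =
      ⋂ i, ⋂ j, {ω : Sample d N | (sampleGraph fin fout ω).Adj i j ↔ H.Adj i j} := by
    ext ω
    simp only [Set.mem_ofPred_eq, Set.mem_iInter]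
    constructor
    · rintro rfl i j; rfl
    · intro h; ext i j; exact h i j
  rw [h1]
  refine MeasurableSet.iInter fun i => MeasurableSet.iInter fun j => ?_
  by_cases hH : H.Adj i j
  · simpa [hH] using measurableSet_adj fin fout hin hout i j
  · have : {ω : Sample d N | (sampleGraph fin fout ω).Adj i j ↔ H.Adj i j} =
        {ω : Sample d N | (sampleGraph fin fout ω).Adj i j}ᶜ := by
      ext ω; simp [hH]
    rw [this]
    exact (measurableSet_adj fin fout hin hout i j).compl

/-- weight of the labels `z` and the graph `H` given the positions `x` -/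
noncomputable def wt (fin fout : ℝ≥0 → unitInterval) (x : Fin N → Space d) (z : Fin N → Bool)
    (H : SimpleGraph (Fin N)) : ENNReal :=
  (Measure.pi fun _ : Fin N => uniformOn (Set.univ : Set Bool)) {z} *
    (Measure.pi fun _ : Sym2 (Fin N) => (volume : Measure ℝ)[|Set.Icc (0 : ℝ) 1])
      {u | sampleGraph fin fout (x, z, u) = H}

lemma measurable_wt (hin : Measurable fin) (hout : Measurable fout) (z : Fin N → Bool)
    (H : SimpleGraph (Fin N)) : Measurable fun x : Fin N → Space d => wt fin fout x z H := by
  unfold wt
  apply Measurable.const_mul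
  have hs : MeasurableSet {p : (Fin N → Space d) × (Sym2 (Fin N) → ℝ) |
      sampleGraph fin fout (p.1, z, p.2) = H} := by
    have hmap : Measurable (fun p : (Fin N → Space d) × (Sym2 (Fin N) → ℝ) =>
        ((p.1, z, p.2) : Sample d N)) :=
      measurable_fst.prodMk (measurable_const.prodMk measurable_snd)
    exact hmap (measurableSet_sampleGraph_eq fin fout hin hout H)
  exact measurable_measure_prodMk_left hs

/-- disintegration of the sample law over the finite set of (labels, graph) -/
lemma lintegral_sampleLaw (hin : Measurable fin) (hout : Measurable fout) (n : ℝ)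
    (F : (Fin N → Space d) → (Fin N → Bool) → SimpleGraph (Fin N) → ENNReal)
    (hF : ∀ z H, Measurable fun x => F x z H) :
    ∫⁻ ω, F ω.1 ω.2.1 (sampleGraph fin fout ω) ∂(sampleLaw d n N) =
      ∫⁻ x, ∑ z, ∑ H, F x z H * wt fin fout x z H
        ∂(Measure.pi fun _ : Fin N => (volume : Measure (Space d))[|box d n]) := by
  classical
  have hmeas : Measurable fun ω : Sample d N => F ω.1 ω.2.1 (sampleGraph fin fout ω) := by
    have h1 : (fun ω : Sample d N => F ω.1 ω.2.1 (sampleGraph fin fout ω)) =
        fun ω => ∑ z, ∑ H, ({ω : Sample d N | ω.2.1 = z} ∩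
          {ω : Sample d N | sampleGraph fin fout ω = H}).indicator (fun ω => F ω.1 z H) ω := by
      ext ω
      rw [Finset.sum_eq_single ω.2.1, Finset.sum_eq_single (sampleGraph fin fout ω)]
      · rw [Set.indicator_of_mem]
        exact ⟨rfl, rfl⟩
      · intro H _ hH
        rw [Set.indicator_of_notMem]
        rintro ⟨_, h⟩
        exact hH h.symm
      · simp
      · intro z _ hz
        apply Finset.sum_eq_zero
        intro H _
        rw [Set.indicator_of_notMem]
        rintro ⟨h, _⟩
        exact hz h.symm
      · simp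
    rw [h1]
    refine Finset.measurable_sum _ fun z _ => Finset.measurable_sum _ fun H _ => ?_
    apply ((hF z H).comp measurable_fst).indicator
    refine MeasurableSet.inter ?_ (measurableSet_sampleGraph_eq fin fout hin hout H)
    exact (measurable_fst.comp measurable_snd) (measurableSet_singleton z)
  unfold sampleLaw
  rw [lintegral_prod _ hmeas.aemeasurable]
  apply lintegral_congr
  intro x
  have hm2 : Measurable fun y : (Fin N → Bool) × (Sym2 (Fin N) → ℝ) =>
      F x y.1 (sampleGraph fin fout ((x, y) : Sample d N)) := hmeas.comp measurable_prodMk_left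
  change ∫⁻ y : (Fin N → Bool) × (Sym2 (Fin N) → ℝ),
      F x y.1 (sampleGraph fin fout ((x, y) : Sample d N)) ∂_ = _
  rw [lintegral_prod _ hm2.aemeasurable, lintegral_fintype]
  apply Finset.sum_congr rfl
  intro z _
  have h2 := lintegral_finite_range
    (Measure.pi fun _ : Sym2 (Fin N) => (volume : Measure ℝ)[|Set.Icc (0 : ℝ) 1])
    (fun u => sampleGraph fin fout ((x, z, u) : Sample d N))
    (fun H => by
      have hmap : Measurable (fun u : Sym2 (Fin N) → ℝ => ((x, z, u) : Sample d N)) :=
        measurable_const.prodMk (measurable_const.prodMk measurable_id)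
      exact hmap (measurableSet_sampleGraph_eq fin fout hin hout H)) (F x z)
  simp only at h2 ⊢
  rw [h2, Finset.sum_mul]
  apply Finset.sum_congr rfl
  intro H _
  unfold wt
  ring

/-- restriction of a sample to a subset of the points (given by an injective map) -/
def restr {m N : ℕ} (e : Fin m → Fin N) (ω : Sample d N) : Sample d m :=
  (ω.1 ∘ e, ω.2.1 ∘ e, ω.2.2 ∘ Sym2.map e)

lemma measurePreserving_restr {m N : ℕ} (e : Fin m → Fin N) (he : Function.Injective e) {n : ℝ}
    (hn : 0 < n) : MeasurePreserving (restr (d := d) e) (sampleLaw d n N) (sampleLaw d n m) := by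
  have := isProb_box d hn
  have h1 := measurePreserving_comp_injective ((volume : Measure (Space d))[|box d n]) e he
  have h2 := measurePreserving_comp_injective (uniformOn (Set.univ : Set Bool)) e he
  have h3 := measurePreserving_comp_injective ((volume : Measure ℝ)[|Set.Icc (0 : ℝ) 1])
    (Sym2.map e) (Sym2.map.injective he)
  exact h1.prod (h2.prod h3)

lemma sampleGraph_restr {m N : ℕ} (e : Fin m → Fin N) (he : Function.Injective e)
    (ω : Sample d N) :
    sampleGraph fin fout (restr e ω) = (sampleGraph fin fout ω).comap e := by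
  ext i j
  simp only [sampleGraph, restr, SimpleGraph.comap_adj, he.ne_iff, Function.comp_apply,
    Sym2.map_mk]
  exact Iff.rfl

end

end Pool.Agent.Lib.MP_d9d2fc_pr
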