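import Mathlib
import Pool.Agent.Lib.MP_d9d2fc_pr.Meas

open MeasureTheory ProbabilityTheory Filter
open scoped NNReal Topology

namespace Pool.Agent.Lib.MP_d9d2fc_pr

lemma exists_measurable_argmax {α T : Type*} [MeasurableSpace α] [Fintype T] [Nonempty T]
    [MeasurableSpace T] (f : T → α → ENNReal) (hf : ∀ t, Measurable (f t)) :
    ∃ s : α → T, Measurable s ∧ ∀ a t, f t a ≤ f (s a) a := by
  classical
  have key : ∀ S : Finset T, S.Nonempty → ∃ s : α → T, Measurable s ∧
      Measurable (fun a => f (s a) a) ∧ ∀ a, ∀ t ∈ S, f t a ≤ f (s a) a := by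
    intro S hS
    induction hS using Finset.Nonempty.cons_induction with
    | singleton t₀ =>
      refine ⟨fun _ => t₀, measurable_const, hf t₀, ?_⟩
      intro a t ht
      rw [Finset.mem_singleton] at ht
      rw [ht]
    | cons t₀ S h hS ih =>
      obtain ⟨s, hs1, hs2, hs3⟩ := ih
      have hlt : MeasurableSet {a | f (s a) a < f t₀ a} := measurableSet_lt hs2 (hf t₀)
      refine ⟨fun a => if f (s a) a < f t₀ a then t₀ else s a,
        Measurable.ite hlt measurable_const hs1, ?_, ?_⟩
      · have : (fun a => f (if f (s a) a < f t₀ a then t₀ else s a) a) =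
            fun a => if f (s a) a < f t₀ a then f t₀ a else f (s a) a := by
          ext a; split_ifs <;> rfl
        rw [this]
        exact Measurable.ite hlt (hf t₀) hs2
      · intro a t ht
        rw [Finset.mem_cons] at ht
        change f t a ≤ f (if f (s a) a < f t₀ a then t₀ else s a) a
        by_cases hc : f (s a) a < f t₀ a
        · rw [if_pos hc]
          rcases ht with rfl | ht
          · exact le_rfl
          · exact (hs3 a t ht).trans hc.le
        · rw [if_neg hc]
          rcases ht with rfl | ht
          · exact not_lt.mp hc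
          · exact hs3 a t ht
  obtain ⟨s, hs1, _, hs3⟩ := key Finset.univ Finset.univ_nonempty
  exact ⟨s, hs1, fun a t => hs3 a t (Finset.mem_univ t)⟩

section

variable {d N : ℕ} (fin fout : ℝ≥0 → unitInterval)

/-- injective real-valued key of a point, used to order the points -/
noncomputable def key (x : Fin N → Space d) : Fin N → ℝ := fun i => embeddingReal (Space d) (x i)

lemma key_comp (x : Fin N → Space d) (π : Equiv.Perm (Fin N)) : key (x ∘ π) = key x ∘ π := rfl

lemma exists_sort {x : Fin N → Space d} (hx : Function.Injective x) :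
    ∃ σ : Equiv.Perm (Fin N), StrictMono (key x ∘ σ) := by
  refine ⟨Tuple.sort (key x), ?_⟩
  apply (Tuple.monotone_sort (key x)).strictMono_of_injective
  have h1 : Function.Injective (key x) :=
    (measurableEmbedding_embeddingReal (Space d)).injective.comp hx
  exact h1.comp (Equiv.injective _)

lemma injective_of_sort {x : Fin N → Space d} {σ : Equiv.Perm (Fin N)}
    (h : StrictMono (key x ∘ σ)) : Function.Injective x := by
  have h1 : Function.Injective (key x ∘ σ) := h.injective
  intro i j hij
  have h2 : (key x ∘ σ) (σ.symm i) = (key x ∘ σ) (σ.symm j) := by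
    simp [key, hij]
  exact σ.symm.injective (h1 h2)

lemma sort_unique {x : Fin N → Space d} {σ σ' : Equiv.Perm (Fin N)}
    (h : StrictMono (key x ∘ σ)) (h' : StrictMono (key x ∘ σ')) : σ = σ' := by
  have h1 : key x ∘ σ = key x ∘ σ' := by
    apply (h.range_inj h').mp
    rw [Set.range_comp, Set.range_comp, σ.surjective.range_eq, σ'.surjective.range_eq]
  have h2 : Function.Injective (key x) :=
    (measurableEmbedding_embeddingReal (Space d)).injective.comp (injective_of_sort h)
  ext i
  have := congrFun h1 i
  exact congrArg Fin.val (h2 this)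

/-- posterior score of the labelling `t` -/
noncomputable def score (γ : ℝ) (x : Fin N → Space d) (H : SimpleGraph (Fin N))
    (t : Fin N → Bool) : ENNReal := by
  classical
  exact ∑ z, (if γ * N ≤ |∑ i, spin (t i) * spin (z i)| then 1 else 0) * wt fin fout x z H

lemma measurable_score (hin : Measurable fin) (hout : Measurable fout) (γ : ℝ)
    (H : SimpleGraph (Fin N)) (t : Fin N → Bool) :
    Measurable fun x : Fin N → Space d => score fin fout γ x H t := by
  unfold score
  exact Finset.measurable_sum _ fun z _ => (measurable_wt fin fout hin hout z H).const_mul _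

lemma comap_perm_injective (π : Equiv.Perm (Fin N)) {G H : SimpleGraph (Fin N)}
    (h : G.comap π = H.comap π) : G = H := by
  ext i j
  have h1 : (G.comap π).Adj (π.symm i) (π.symm j) ↔ (H.comap π).Adj (π.symm i) (π.symm j) := by
    rw [h]
  simpa using h1

lemma wt_perm (hin : Measurable fin) (hout : Measurable fout) (π : Equiv.Perm (Fin N))
    (x : Fin N → Space d) (z : Fin N → Bool)
    (H : SimpleGraph (Fin N)) : wt fin fout (x ∘ π) (z ∘ π) (H.comap π) = wt fin fout x z H := by
  unfold wt
  congr 1
  · have h := measurePreserving_comp_injective (uniformOn (Set.univ : Set Bool)) π π.injective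
    rw [← h.measure_preimage (measurableSet_singleton _).nullMeasurableSet]
    congr 1
    ext y
    simp only [Set.mem_preimage, Set.mem_singleton_iff]
    constructor
    · intro hy
      ext i
      have := congrFun hy (π.symm i)
      simpa using this
    · rintro rfl; rfl
  · have h := measurePreserving_comp_injective ((volume : Measure ℝ)[|Set.Icc (0 : ℝ) 1])
      (Sym2.map π) (Sym2.map.injective π.injective)
    have hs : MeasurableSet {u | sampleGraph fin fout ((x ∘ π, z ∘ π, u) : Sample d N) =
        H.comap π} := by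
      have hmap : Measurable (fun u : Sym2 (Fin N) → ℝ => ((x ∘ π, z ∘ π, u) : Sample d N)) :=
        measurable_const.prodMk (measurable_const.prodMk measurable_id)
      exact hmap (measurableSet_sampleGraph_eq fin fout hin hout _)
    rw [← h.measure_preimage hs.nullMeasurableSet]
    congr 1
    ext u
    simp only [Set.mem_preimage, Set.mem_ofPred_eq]
    have h2 := sampleGraph_restr fin fout π π.injective ((x, z, u) : Sample d N)
    unfold restr at h2
    simp only at h2
    rw [h2]
    constructor
    · intro h3; exact comap_perm_injective π h3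
    · intro h3; rw [h3]

lemma score_perm (hin : Measurable fin) (hout : Measurable fout) (γ : ℝ)
    (π : Equiv.Perm (Fin N)) (x : Fin N → Space d) (H : SimpleGraph (Fin N)) (t : Fin N → Bool) :
    score fin fout γ (x ∘ π) (H.comap π) (t ∘ π) = score fin fout γ x H t := by
  unfold score
  symm
  apply Fintype.sum_equiv (π.symm.arrowCongr (Equiv.refl Bool))
  intro z
  have h1 : (π.symm.arrowCongr (Equiv.refl Bool)) z = z ∘ π := by
    ext i; simp [Equiv.arrowCongr]
  rw [h1, wt_perm fin fout hin hout]
  congr 2
  simp only [eq_iff_iff]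
  have h2 : ∑ i, spin (t i) * spin (z i) = ∑ i, spin ((t ∘ π) i) * spin ((z ∘ π) i) := by
    symm
    exact Fintype.sum_equiv π _ _ fun i => rfl
  rw [h2]

/-- a measurable optimal estimator that respects renumbering of the points -/
lemma exists_optimal (hin : Measurable fin) (hout : Measurable fout) (γ : ℝ) (N : ℕ) :
    ∃ τ : (Fin N → Space d) → SimpleGraph (Fin N) → Fin N → Bool,
      (∀ H, Measurable fun x => τ x H) ∧
      (∀ (π : Equiv.Perm (Fin N)) (x : Fin N → Space d) (H : SimpleGraph (Fin N)),
        Function.Injective x → τ (x ∘ π) (H.comap π) = τ x H ∘ π) ∧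
      ∀ x H t, score fin fout γ x H t ≤ score fin fout γ x H (τ x H) := by
  classical
  choose t₀ ht₀m ht₀ using fun H : SimpleGraph (Fin N) =>
    exists_measurable_argmax (fun t (x : Fin N → Space d) => score fin fout γ x H t)
      (fun t => measurable_score fin fout hin hout γ H t)
  set τ : (Fin N → Space d) → SimpleGraph (Fin N) → Fin N → Bool := fun x H =>
    if h : ∃ σ : Equiv.Perm (Fin N), StrictMono (key x ∘ σ) then
      t₀ (H.comap h.choose) (x ∘ h.choose) ∘ h.choose.symm
    else t₀ H x with hτ
  have hτ1 : ∀ (x : Fin N → Space d) (H : SimpleGraph (Fin N)) (σ : Equiv.Perm (Fin N)),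
      StrictMono (key x ∘ σ) → τ x H = t₀ (H.comap σ) (x ∘ σ) ∘ σ.symm := by
    intro x H σ hσ
    have hex : ∃ σ : Equiv.Perm (Fin N), StrictMono (key x ∘ σ) := ⟨σ, hσ⟩
    have h1 : hex.choose = σ := sort_unique hex.choose_spec hσ
    simp only [hτ]
    rw [dif_pos hex]
    rw [h1]
  have hτ2 : ∀ (x : Fin N → Space d) (H : SimpleGraph (Fin N)),
      (¬ ∃ σ : Equiv.Perm (Fin N), StrictMono (key x ∘ σ)) → τ x H = t₀ H x := by
    intro x H h
    simp only [hτ]
    rw [dif_neg h]
  have hSm : ∀ σ : Equiv.Perm (Fin N), MeasurableSet {x : Fin N → Space d |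
      StrictMono (key x ∘ σ)} := by
    intro σ
    have h1 : {x : Fin N → Space d | StrictMono (key x ∘ σ)} =
        ⋂ i, ⋂ j, {x : Fin N → Space d | i < j → key x (σ i) < key x (σ j)} := by
      ext x
      simp only [Set.mem_ofPred_eq, Set.mem_iInter]
      exact ⟨fun h i j hij => h hij, fun h i j hij => h i j hij⟩
    rw [h1]
    refine MeasurableSet.iInter fun i => MeasurableSet.iInter fun j => ?_
    have hk : ∀ i : Fin N, Measurable fun x : Fin N → Space d => key x i := fun i =>
      (measurableEmbedding_embeddingReal (Space d)).measurable.comp (measurable_pi_apply i)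
    by_cases hij : i < j
    · simpa [hij] using measurableSet_lt (hk (σ i)) (hk (σ j))
    · simp [hij]
  refine ⟨τ, ?_, ?_, ?_⟩
  · -- measurability
    intro H
    apply measurable_to_countable'
    intro t
    have h1 : (fun x => τ x H) ⁻¹' {t} =
        (⋃ σ : Equiv.Perm (Fin N), {x : Fin N → Space d | StrictMono (key x ∘ σ)} ∩
          {x | t₀ (H.comap σ) (x ∘ σ) ∘ σ.symm = t}) ∪
        ((⋃ σ : Equiv.Perm (Fin N), {x : Fin N → Space d | StrictMono (key x ∘ σ)})ᶜ ∩
          {x | t₀ H x = t}) := by
      ext x
      simp only [Set.mem_preimage, Set.mem_singleton_iff, Set.mem_union, Set.mem_iUnion,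
        Set.mem_inter_iff, Set.mem_ofPred_eq, Set.mem_compl_iff]
      constructor
      · intro h
        by_cases hex : ∃ σ : Equiv.Perm (Fin N), StrictMono (key x ∘ σ)
        · obtain ⟨σ, hσ⟩ := hex
          left
          exact ⟨σ, hσ, by rw [← h, hτ1 x H σ hσ]⟩
        · right
          exact ⟨hex, by rw [← h, hτ2 x H hex]⟩
      · rintro (⟨σ, hσ, h⟩ | ⟨hex, h⟩)
        · rw [hτ1 x H σ hσ, h]
        · rw [hτ2 x H hex, h]
    rw [h1]
    refine MeasurableSet.union (MeasurableSet.iUnion fun σ => (hSm σ).inter ?_)
      ((MeasurableSet.iUnion fun σ => hSm σ).compl.inter ?_)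
    · have h2 : {x : Fin N → Space d | t₀ (H.comap σ) (x ∘ σ) ∘ σ.symm = t} =
          (fun x => t₀ (H.comap σ) (x ∘ σ)) ⁻¹' {t ∘ σ} := by
        ext x
        simp only [Set.mem_ofPred_eq, Set.mem_preimage, Set.mem_singleton_iff]
        constructor
        · rintro rfl; ext i; simp
        · intro h; rw [h]; ext i; simp
      rw [h2]
      have h3 : Measurable fun x : Fin N → Space d => t₀ (H.comap σ) (x ∘ σ) :=
        (ht₀m (H.comap σ)).comp
          (measurable_pi_lambda _ fun i => measurable_pi_apply (σ i))
      exact h3 (measurableSet_singleton _)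
    · exact (ht₀m H) (measurableSet_singleton t)
  · -- equivariance
    intro π x H hx
    obtain ⟨σ, hσ⟩ := exists_sort hx
    have hσ' : StrictMono (key (x ∘ π) ∘ (σ.trans π.symm : Equiv.Perm (Fin N))) := by
      have : key (x ∘ π) ∘ (σ.trans π.symm : Equiv.Perm (Fin N)) = key x ∘ σ := by
        ext i; simp [key]
      rw [this]; exact hσ
    rw [hτ1 x H σ hσ, hτ1 (x ∘ π) (H.comap π) _ hσ']
    have h1 : (x ∘ π) ∘ (σ.trans π.symm : Equiv.Perm (Fin N)) = x ∘ σ := by
      ext i; simp
    have h2 : (H.comap π).comap (σ.trans π.symm : Equiv.Perm (Fin N)) = H.comap σ := by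
      ext i j; simp
    rw [h1, h2]
    ext i
    simp
  · -- optimality
    intro x H t
    by_cases hex : ∃ σ : Equiv.Perm (Fin N), StrictMono (key x ∘ σ)
    · obtain ⟨σ, hσ⟩ := hex
      rw [hτ1 x H σ hσ]
      have h1 := score_perm fin fout hin hout γ σ x H (t₀ (H.comap σ) (x ∘ σ) ∘ σ.symm)
      have h2 : (t₀ (H.comap σ) (x ∘ σ) ∘ σ.symm) ∘ σ = t₀ (H.comap σ) (x ∘ σ) := by
        ext i; simp
      rw [h2] at h1
      rw [← h1, ← score_perm fin fout hin hout γ σ x H t]
      exact ht₀ (H.comap σ) (x ∘ σ) (t ∘ σ)
    · rw [hτ2 x H hex]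
      exact ht₀ H x t

end

end Pool.Agent.Lib.MP_d9d2fc_pr
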