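import Mathlib
import Pool.Agent.Lib.MP_d9d2fc_pr.Finite

open MeasureTheory ProbabilityTheory Filter
open scoped NNReal Topology

namespace Pool.Agent.Lib.MP_d9d2fc_pr

lemma lintegral_poisson (r : ℝ≥0) (f : ℕ → ENNReal) :
    ∫⁻ n, f n ∂(poissonMeasure r) =
      ∑' n, ENNReal.ofReal (Real.exp (-r) * r ^ n / n.factorial) * f n := by
  rw [lintegral_countable']
  apply tsum_congr
  intro n
  rw [poissonMeasure_singleton, mul_comm]

/-- thinning of a Poisson number of points -/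
lemma poisson_thinning (Λ : ℝ≥0) {ρ : ℝ} (h0 : 0 ≤ ρ) (h1 : ρ ≤ 1) (f : ℕ → ENNReal) :
    ∫⁻ N, ∑ A : Finset (Fin N), ENNReal.ofReal (thin ρ A) * f A.card ∂(poissonMeasure Λ) =
      ∫⁻ m, f m ∂(poissonMeasure (ρ.toNNReal * Λ)) := by
  have h1' : 0 ≤ 1 - ρ := by linarith
  rw [lintegral_poisson, lintegral_poisson]
  -- inner sum over subsets
  have hin : ∀ N : ℕ, ∑ A : Finset (Fin N), ENNReal.ofReal (thin ρ A) * f A.card =
      ∑ p ∈ Finset.HasAntidiagonal.antidiagonal N,
        ENNReal.ofReal ((N.choose p.1 : ℝ) * (ρ ^ p.1 * (1 - ρ) ^ p.2)) * f p.1 := by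
    intro N
    have h2 := Finset.sum_powerset_apply_card
      (fun m => ENNReal.ofReal (ρ ^ m * (1 - ρ) ^ (N - m)) * f m)
      (x := (Finset.univ : Finset (Fin N)))
    simp only [Finset.powerset_univ, Finset.card_univ, Fintype.card_fin] at h2
    have h3 : ∀ A : Finset (Fin N), ENNReal.ofReal (thin ρ A) * f A.card =
        ENNReal.ofReal (ρ ^ A.card * (1 - ρ) ^ (N - A.card)) * f A.card := by
      intro A; simp [thin]
    simp_rw [h3]
    rw [h2, Finset.Nat.sum_antidiagonal_eq_sum_range_succ_mk]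
    apply Finset.sum_congr rfl
    intro m _
    simp only
    rw [nsmul_eq_mul, ← mul_assoc, ENNReal.ofReal_mul (p := (N.choose m : ℝ)) (by positivity),
      ENNReal.ofReal_natCast]
  simp_rw [hin]
  have hcomb : ∀ N : ℕ, ENNReal.ofReal (Real.exp (-Λ) * Λ ^ N / N.factorial) *
      ∑ p ∈ Finset.HasAntidiagonal.antidiagonal N,
        ENNReal.ofReal ((N.choose p.1 : ℝ) * (ρ ^ p.1 * (1 - ρ) ^ p.2)) * f p.1 =
      ∑ p ∈ Finset.HasAntidiagonal.antidiagonal N,
        ENNReal.ofReal (Real.exp (-(ρ * Λ)) * (ρ * Λ) ^ p.1 / p.1.factorial) * f p.1 *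
        ENNReal.ofReal (Real.exp (-((1 - ρ) * Λ)) * ((1 - ρ) * Λ) ^ p.2 / p.2.factorial) := by
    intro N
    rw [Finset.mul_sum]
    apply Finset.sum_congr rfl
    rintro ⟨m, k⟩ hp
    rw [Finset.HasAntidiagonal.mem_antidiagonal] at hp
    simp only at hp ⊢
    rw [mul_right_comm (ENNReal.ofReal (Real.exp (-(ρ * Λ)) * (ρ * Λ) ^ m / m.factorial)),
      ← mul_assoc, ← ENNReal.ofReal_mul (by positivity), ← ENNReal.ofReal_mul (by positivity)]
    congr 2
    have h4 : Real.exp (-(Λ : ℝ)) = Real.exp (-(ρ * Λ)) * Real.exp (-((1 - ρ) * Λ)) := by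
      rw [← Real.exp_add]; congr 1; ring
    have h5 : ((N.choose m : ℕ) : ℝ) * (m.factorial * k.factorial) = N.factorial := by
      rw [← hp]
      have := Nat.add_choose_mul_factorial_mul_factorial m k
      rw [← Nat.choose_symm_add] at this
      rw [← mul_assoc]
      exact_mod_cast this
    have hm : (m.factorial : ℝ) ≠ 0 := by positivity
    have hk : (k.factorial : ℝ) ≠ 0 := by positivity
    have hN : (N.factorial : ℝ) ≠ 0 := by positivity
    rw [h4, ← hp, pow_add, mul_pow, mul_pow]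
    rw [← hp] at h5 hN
    generalize (1 - ρ) = s at *
    field_simp
    rw [← h5]
    ring
  simp_rw [hcomb]
  set a : ℕ → ENNReal := fun m =>
    ENNReal.ofReal (Real.exp (-(ρ * Λ)) * (ρ * Λ) ^ m / m.factorial) * f m with ha
  set b : ℕ → ENNReal := fun k =>
    ENNReal.ofReal (Real.exp (-((1 - ρ) * Λ)) * ((1 - ρ) * Λ) ^ k / k.factorial) with hb
  have hsum : ∑' N, ∑ p ∈ Finset.HasAntidiagonal.antidiagonal N, a p.1 * b p.2 = (∑' m, a m) * ∑' k, b k := by
    rw [← ENNReal.tsum_mul_right]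
    simp_rw [← ENNReal.tsum_mul_left]
    rw [← ENNReal.tsum_prod (f := fun m k => a m * b k)]
    rw [← Finset.HasAntidiagonal.sigmaAntidiagonalEquivProd.tsum_eq
      (fun p : ℕ × ℕ => a p.1 * b p.2)]
    rw [ENNReal.tsum_sigma']
    apply tsum_congr
    intro N
    rw [tsum_fintype]
    rw [← Finset.sum_coe_sort]
    rfl
  have hb1 : ∑' k, b k = 1 := by
    have h6 := hasSum_one_poissonMeasure ((1 - ρ).toNNReal * Λ)
    simp only [NNReal.coe_mul, Real.coe_toNNReal _ h1'] at h6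
    rw [hb, ← ENNReal.ofReal_tsum_of_nonneg (fun k => by positivity) h6.summable, h6.tsum_eq,
      ENNReal.ofReal_one]
  rw [hsum, hb1, mul_one]
  apply tsum_congr
  intro m
  simp only [ha, NNReal.coe_mul, Real.coe_toNNReal _ h0]

/-- few points are unlikely -/
lemma tendsto_poisson_lt (N₀ : ℕ) {l : Filter ℝ} (hl : l ≤ atTop) {lam : ℝ} (hlam : 0 < lam) :
    Tendsto (fun n => poissonMeasure (lam * n).toNNReal {N | N < N₀}) l (𝓝 0) := by
  have h1 : ∀ r : ℝ≥0, poissonMeasure r {N | N < N₀} =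
      ∑ k ∈ Finset.range N₀, ENNReal.ofReal (Real.exp (-r) * r ^ k / k.factorial) := by
    intro r
    have : {N | N < N₀} = ((Finset.range N₀ : Finset ℕ) : Set ℕ) := by ext; simp
    rw [this, ← sum_measure_singleton]
    apply Finset.sum_congr rfl
    intro k _
    rw [poissonMeasure_singleton]
  simp_rw [h1]
  rw [show (0 : ENNReal) = ∑ k ∈ Finset.range N₀, 0 by simp]
  apply tendsto_finsetSum
  intro k _
  rw [← ENNReal.ofReal_zero]
  apply (ENNReal.continuous_ofReal.tendsto 0).comp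
  have h2 : Tendsto (fun x : ℝ => Real.exp (-x) * x ^ k / k.factorial) atTop (𝓝 0) := by
    have h3 := (Real.tendsto_pow_mul_exp_neg_atTop_nhds_zero k).div_const (k.factorial : ℝ)
    rw [zero_div] at h3
    refine h3.congr fun x => ?_
    ring
  have h4 : Tendsto (fun n : ℝ => lam * n) l atTop :=
    (tendsto_id.const_mul_atTop hlam).mono_left hl
  refine (h2.comp h4).congr' ?_
  have h5 : ∀ᶠ n in l, 0 ≤ n := hl (eventually_ge_atTop 0)
  filter_upwards [h5] with n hn
  simp [Real.coe_toNNReal _ (mul_nonneg hlam.le hn)]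

/-- Chebyshev bound for the size of the thinned set -/
lemma thin_card_lt {ρ ρ' : ℝ} (h0 : 0 ≤ ρ) (h1 : ρ ≤ 1) (hρ : ρ' < ρ) {N : ℕ} (hN : 0 < N) :
    ∑ A : Finset (Fin N), thin ρ A * (if (A.card : ℝ) < ρ' * N then 1 else 0) ≤
      1 / ((ρ - ρ') ^ 2 * N) := by
  have hN' : (0 : ℝ) < N := by exact_mod_cast hN
  have hd : 0 < ρ - ρ' := by linarith
  have h2 := thin_second_moment (ι := Fin N) ρ (fun _ => 1)
  simp only [one_mul, Finset.sum_sub_distrib, Finset.sum_const, Finset.card_univ,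
    Fintype.card_fin, one_pow, nsmul_eq_mul] at h2
  have h3 : ∀ A : Finset (Fin N), ∑ i, (if i ∈ A then (1 : ℝ) else 0) = A.card := by
    intro A; simp
  simp_rw [h3] at h2
  have h4 : ∀ A : Finset (Fin N), thin ρ A * (if (A.card : ℝ) < ρ' * N then 1 else 0) ≤
      thin ρ A * ((A.card : ℝ) - N * ρ) ^ 2 / ((ρ - ρ') * N) ^ 2 := by
    intro A
    rw [mul_div_assoc]
    apply mul_le_mul_of_nonneg_left _ (thin_nonneg h0 h1 A)
    split_ifs with h
    · rw [le_div_iff₀ (by positivity), one_mul]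
      have h5 : (ρ - ρ') * N ≤ N * ρ - A.card := by linarith
      calc ((ρ - ρ') * N) ^ 2 ≤ (N * ρ - A.card) ^ 2 := pow_le_pow_left₀ (by positivity) h5 2
        _ = _ := by ring
    · positivity
  refine (Finset.sum_le_sum fun A _ => h4 A).trans ?_
  rw [← Finset.sum_div, h2, div_le_div_iff₀ (by positivity) (by positivity)]
  have h6 : ρ * (1 - ρ) ≤ 1 := by nlinarith
  have h7 : (0 : ℝ) ≤ (ρ - ρ') ^ 2 * N ^ 2 := by positivity
  nlinarith

end Pool.Agent.Lib.MP_d9d2fc_pr
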