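import Mathlib
import Pool.Agent.Lib.MP_d9d2fc_pr.Thinning
import Pool.Agent.Lib.MP_d9d2fc_pr.Opt

open MeasureTheory ProbabilityTheory Filter
open scoped NNReal Topology

namespace Pool.Agent.Lib.MP_d9d2fc_pr

lemma spin_eq_sg (b : Bool) : spin b = sg b := rfl

section

variable {d N : ℕ} (fin fout : ℝ≥0 → unitInterval)

lemma measurableSet_sample (hin : Measurable fin) (hout : Measurable fout)
    (P : (Fin N → Space d) → (Fin N → Bool) → SimpleGraph (Fin N) → Prop)
    (hP : ∀ z H, MeasurableSet {x | P x z H}) :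
    MeasurableSet {ω : Sample d N | P ω.1 ω.2.1 (sampleGraph fin fout ω)} := by
  classical
  have h1 : {ω : Sample d N | P ω.1 ω.2.1 (sampleGraph fin fout ω)} =
      ⋃ z, ⋃ H, ({ω : Sample d N | ω.2.1 = z} ∩ {ω : Sample d N | sampleGraph fin fout ω = H}) ∩
        {ω : Sample d N | P ω.1 z H} := by
    ext ω
    simp only [Set.mem_ofPred_eq, Set.mem_iUnion, Set.mem_inter_iff]
    constructor
    · intro h; exact ⟨_, _, ⟨rfl, rfl⟩, h⟩
    · rintro ⟨z, H, ⟨rfl, rfl⟩, h⟩; exact h
  rw [h1]
  refine MeasurableSet.iUnion fun z => MeasurableSet.iUnion fun H => ?_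
  refine MeasurableSet.inter (MeasurableSet.inter ?_
    (measurableSet_sampleGraph_eq fin fout hin hout H)) ?_
  · exact (measurable_fst.comp measurable_snd) (measurableSet_singleton z)
  · exact measurable_fst (hP z H)

lemma isProb_sampleLaw {n : ℝ} (hn : 0 < n) : IsProbabilityMeasure (sampleLaw d n N) := by
  have := isProb_box d hn
  unfold sampleLaw
  infer_instance

/-- the value at `i` of a labelling of the thinned set `A` -/
noncomputable def ext (A : Finset (Fin N)) (t : Fin A.card → Bool) (i : Fin N) : ℝ :=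
  if h : i ∈ A then spin (t ((A.orderIsoOfFin rfl).symm ⟨i, h⟩)) else 0

lemma abs_ext_le (A : Finset (Fin N)) (t : Fin A.card → Bool) (i : Fin N) : |ext A t i| ≤ 1 := by
  unfold ext
  split_ifs
  · rw [spin_eq_sg, abs_sg]
  · simp

lemma ext_of_notMem (A : Finset (Fin N)) (t : Fin A.card → Bool) {i : Fin N} (h : i ∉ A) :
    ext A t i = 0 := by
  unfold ext
  rw [dif_neg h]

lemma sum_ext (A : Finset (Fin N)) (t : Fin A.card → Bool) (z : Fin N → Bool) :
    ∑ i, ext A t i * sg (z i) = ∑ j, spin (t j) * spin (z (A.orderEmbOfFin rfl j)) := by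
  have h1 : ∑ i, ext A t i * sg (z i) = ∑ i ∈ A, ext A t i * sg (z i) := by
    symm
    apply Finset.sum_subset (Finset.subset_univ A)
    intro i _ hi
    rw [ext_of_notMem A t hi, zero_mul]
  rw [h1, ← Finset.sum_coe_sort A]
  symm
  apply Fintype.sum_equiv (A.orderIsoOfFin rfl).toEquiv
  intro j
  have h2 : ((A.orderIsoOfFin rfl).toEquiv j : Fin N) = A.orderEmbOfFin rfl j := rfl
  rw [h2, spin_eq_sg (z _)]
  congr 1
  unfold ext
  rw [dif_pos (Finset.orderEmbOfFin_mem A rfl j)]
  congr 1
  have h3 : (⟨A.orderEmbOfFin rfl j, Finset.orderEmbOfFin_mem A rfl j⟩ : A) =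
      A.orderIsoOfFin rfl j := by
    apply Subtype.ext
    exact (Finset.coe_orderIsoOfFin_apply A rfl j).symm
  rw [h3, OrderIso.symm_apply_apply]

lemma wt_ne_top (x : Fin N → Space d) (z : Fin N → Bool) (H : SimpleGraph (Fin N)) :
    wt fin fout x z H ≠ ⊤ :=
  ENNReal.mul_ne_top (measure_ne_top _ _) (measure_ne_top _ _)

/-- pointwise consequence of the finite lemma -/
lemma pointwise_bound {ρ κ γ₁ ε η : ℝ} (hρ0 : 0 < ρ) (hρ1 : ρ ≤ 1) (hη : 0 < η) (hε : 0 < ε)
    (hfin : ∀ μ : (Fin N → Bool) → ℝ, (∀ z, 0 ≤ μ z) → ∑ z, μ z = 1 →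
      ∀ v : Finset (Fin N) → Fin N → ℝ, (∀ A i, |v A i| ≤ 1) → (∀ A i, i ∉ A → v A i = 0) →
      (∑ A, ∑ z, thin ρ A * μ z *
        (if |∑ i, v A i * sg (z i)| < κ * N then 1 else 0) ≤ η) →
      ∃ t : Fin N → Bool, 1 - ε ≤
        ∑ z, μ z * (if γ₁ * N ≤ |∑ i, sg (t i) * sg (z i)| then 1 else 0))
    (x : Fin N → Space d) (H : SimpleGraph (Fin N))
    (v : Finset (Fin N) → Fin N → ℝ) (hv : ∀ A i, |v A i| ≤ 1) (hv0 : ∀ A i, i ∉ A → v A i = 0)
    (topt : Fin N → Bool) (hopt : ∀ t, score fin fout γ₁ x H t ≤ score fin fout γ₁ x H topt) :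
    ENNReal.ofReal (1 - ε) * ∑ z, wt fin fout x z H ≤
      score fin fout γ₁ x H topt + ENNReal.ofReal (1 / η) *
        ∑ A, ∑ z, ENNReal.ofReal (thin ρ A) *
          ((if |∑ i, v A i * sg (z i)| < κ * N then 1 else 0) * wt fin fout x z H) := by
  classical
  set W := ∑ z, wt fin fout x z H with hW
  have hWtop : W ≠ ⊤ := by
    rw [hW]; exact ENNReal.sum_ne_top.mpr fun z _ => wt_ne_top fin fout x z H
  by_cases hW0 : W = 0
  · rw [hW0, mul_zero]; exact bot_le
  set Num := ∑ A : Finset (Fin N), ∑ z, ENNReal.ofReal (thin ρ A) *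
          ((if |∑ i, v A i * sg (z i)| < κ * N then 1 else 0) * wt fin fout x z H) with hNum
  by_cases hcase : Num ≤ ENNReal.ofReal η * W
  · -- apply the finite lemma to the posterior
    set μ : (Fin N → Bool) → ℝ := fun z => (wt fin fout x z H / W).toReal with hμ
    have hμ0 : ∀ z, 0 ≤ μ z := fun z => ENNReal.toReal_nonneg
    have hne : ∀ z, wt fin fout x z H / W ≠ ⊤ := fun z =>
      ENNReal.div_ne_top (wt_ne_top fin fout x z H) hW0
    have hμ1 : ∑ z, μ z = 1 := by
      rw [hμ, ← ENNReal.toReal_sum fun z _ => hne z]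
      simp_rw [div_eq_mul_inv]
      rw [← Finset.sum_mul, ENNReal.mul_inv_cancel hW0 hWtop, ENNReal.toReal_one]
    have hwt : ∀ z, wt fin fout x z H = ENNReal.ofReal (μ z) * W := by
      intro z
      rw [hμ, ENNReal.ofReal_toReal (hne z), ENNReal.div_mul_cancel hW0 hWtop]
    have hsum : ∑ A, ∑ z, thin ρ A * μ z *
        (if |∑ i, v A i * sg (z i)| < κ * N then (1 : ℝ) else 0) ≤ η := by
      have h1 : Num = ENNReal.ofReal (∑ A, ∑ z, thin ρ A * μ z *
        (if |∑ i, v A i * sg (z i)| < κ * N then (1 : ℝ) else 0)) * W := by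
        rw [hNum, ENNReal.ofReal_sum_of_nonneg, Finset.sum_mul]
        · apply Finset.sum_congr rfl; intro A _
          rw [ENNReal.ofReal_sum_of_nonneg, Finset.sum_mul]
          · apply Finset.sum_congr rfl; intro z _
            rw [hwt z]
            have ht := thin_nonneg hρ0.le hρ1 A
            split_ifs with hh
            · rw [one_mul, mul_one, ENNReal.ofReal_mul ht, mul_assoc]
            · simp
          · intro z _
            apply mul_nonneg (mul_nonneg (thin_nonneg hρ0.le hρ1 A) (hμ0 z))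
            split_ifs <;> norm_num
        · intro A _
          apply Finset.sum_nonneg; intro z _
          apply mul_nonneg (mul_nonneg (thin_nonneg hρ0.le hρ1 A) (hμ0 z))
          split_ifs <;> norm_num
      rw [h1, ENNReal.mul_le_mul_iff_left hW0 hWtop, ENNReal.ofReal_le_ofReal_iff hη.le] at hcase
      exact hcase
    obtain ⟨t, ht⟩ := hfin μ hμ0 hμ1 v hv hv0 hsum
    have h2 : ENNReal.ofReal (1 - ε) * W ≤ score fin fout γ₁ x H t := by
      have h3 : score fin fout γ₁ x H t = ENNReal.ofReal (∑ z, μ z *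
          (if γ₁ * N ≤ |∑ i, sg (t i) * sg (z i)| then (1 : ℝ) else 0)) * W := by
        unfold score
        rw [ENNReal.ofReal_sum_of_nonneg, Finset.sum_mul]
        · apply Finset.sum_congr rfl; intro z _
          rw [hwt z]
          by_cases hh : γ₁ * N ≤ |∑ i, sg (t i) * sg (z i)|
          · have hh' : γ₁ * N ≤ |∑ i, spin (t i) * spin (z i)| := hh
            rw [if_pos hh, if_pos hh', one_mul, mul_one]
          · have hh' : ¬ γ₁ * N ≤ |∑ i, spin (t i) * spin (z i)| := hh
            rw [if_neg hh, if_neg hh']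
            simp
        · intro z _
          apply mul_nonneg (hμ0 z)
          split_ifs <;> norm_num
      rw [h3]
      exact mul_le_mul_left (ENNReal.ofReal_le_ofReal ht) W
    exact (h2.trans (hopt t)).trans le_self_add
  · push Not at hcase
    have h4 : W ≤ ENNReal.ofReal (1 / η) * Num := by
      calc W = ENNReal.ofReal (1 / η) * (ENNReal.ofReal η * W) := by
            rw [← mul_assoc, ← ENNReal.ofReal_mul (by positivity), one_div_mul_cancel hη.ne',
              ENNReal.ofReal_one, one_mul]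
        _ ≤ _ := mul_le_mul_right hcase.le _
    have h5 : ENNReal.ofReal (1 - ε) * W ≤ W := by
      calc ENNReal.ofReal (1 - ε) * W ≤ 1 * W := by
            apply mul_le_mul_left
            rw [← ENNReal.ofReal_one]
            exact ENNReal.ofReal_le_ofReal (by linarith)
        _ = W := one_mul W
    exact (h5.trans h4).trans le_add_self

lemma sampleLaw_apply (hin : Measurable fin) (hout : Measurable fout) (n : ℝ)
    (P : (Fin N → Space d) → (Fin N → Bool) → SimpleGraph (Fin N) → Prop)
    [∀ x z H, Decidable (P x z H)] (hP : ∀ z H, MeasurableSet {x | P x z H}) :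
    sampleLaw d n N {ω : Sample d N | P ω.1 ω.2.1 (sampleGraph fin fout ω)} =
      ∫⁻ x, ∑ z, ∑ H, (if P x z H then 1 else 0) * wt fin fout x z H
        ∂(Measure.pi fun _ : Fin N => (volume : Measure (Space d))[|box d n]) := by
  rw [← lintegral_sampleLaw fin fout hin hout n (fun x z H => if P x z H then 1 else 0)
    (fun z H => Measurable.ite (hP z H) measurable_const measurable_const)]
  rw [← lintegral_indicator_one (measurableSet_sample fin fout hin hout P hP)]
  apply lintegral_congr
  intro ω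
  by_cases h : P ω.1 ω.2.1 (sampleGraph fin fout ω)
  · rw [if_pos h, Set.indicator_of_mem (by exact h)]; rfl
  · rw [if_neg h, Set.indicator_of_notMem (by exact h)]

/-- the labelling of the thinned set produced by an estimator -/
noncomputable def tauA (τ : Estimator d) (n : ℝ) (A : Finset (Fin N)) (x : Fin N → Space d)
    (H : SimpleGraph (Fin N)) : Fin A.card → Bool :=
  τ.toFun n A.card (x ∘ A.orderEmbOfFin rfl) (H.comap (A.orderEmbOfFin rfl))

lemma measurable_tauA (τ : Estimator d) (n : ℝ) (A : Finset (Fin N)) (H : SimpleGraph (Fin N)) :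
    Measurable fun x : Fin N → Space d => tauA τ n A x H :=
  (τ.measurable n A.card _).comp (measurable_pi_lambda _ fun _ => measurable_pi_apply _)

/-- the probability that the thinned estimator has small signed sum is controlled by the
probability of failure at the smaller number of points -/
lemma thinned_fail_le {τ : Estimator d} {n γ κ ρ' : ℝ} (hn : 0 < n) (hγ : 0 < γ) (hρ' : 0 < ρ')
    (hκ : κ = γ * ρ') (hN : 0 < N) (A : Finset (Fin N)) :
    sampleLaw d n N {ω : Sample d N | |∑ j, spin (tauA τ n A ω.1 (sampleGraph fin fout ω) j) *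
        spin (ω.2.1 (A.orderEmbOfFin rfl j))| < κ * N} ≤
      (if (A.card : ℝ) < ρ' * N then 1 else 0) +
      sampleLaw d n A.card
        {ω | ¬ (γ ≤ overlap (τ.toFun n A.card ω.1 (sampleGraph fin fout ω)) ω.2.1)} := by
  have hP := isProb_sampleLaw (d := d) (N := N) hn
  have hN' : (0 : ℝ) < N := by exact_mod_cast hN
  split_ifs with hA
  · exact prob_le_one.trans le_self_add
  · rw [zero_add]
    push Not at hA
    have hmp := measurePreserving_restr (d := d) (A.orderEmbOfFin rfl)
      (A.orderEmbOfFin rfl).injective hn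
    have hApos : (0 : ℝ) < A.card := lt_of_lt_of_le (by positivity) hA
    have hA0 : A.card ≠ 0 := by
      intro h; rw [h] at hApos; simp at hApos
    have hsub : {ω : Sample d N | |∑ j, spin (tauA τ n A ω.1 (sampleGraph fin fout ω) j) *
        spin (ω.2.1 (A.orderEmbOfFin rfl j))| < κ * N} ⊆
        restr (A.orderEmbOfFin rfl) ⁻¹'
        {ω | ¬ (γ ≤ overlap (τ.toFun n A.card ω.1 (sampleGraph fin fout ω)) ω.2.1)} := by
      intro ω hω
      simp only [Set.mem_ofPred_eq] at hω
      simp only [Set.mem_preimage, Set.mem_ofPred_eq, not_le]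
      rw [sampleGraph_restr fin fout _ (A.orderEmbOfFin rfl).injective]
      unfold overlap
      rw [if_neg hA0, div_lt_iff₀ hApos]
      have h1 : κ * N ≤ γ * A.card := by
        rw [hκ, mul_assoc]
        exact mul_le_mul_of_nonneg_left hA hγ.le
      exact lt_of_lt_of_le hω h1
    calc _ ≤ sampleLaw d n N (restr (A.orderEmbOfFin rfl) ⁻¹'
        {ω | ¬ (γ ≤ overlap (τ.toFun n A.card ω.1 (sampleGraph fin fout ω)) ω.2.1)}) :=
          measure_mono hsub
      _ ≤ (sampleLaw d n N).map (restr (A.orderEmbOfFin rfl))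
        {ω | ¬ (γ ≤ overlap (τ.toFun n A.card ω.1 (sampleGraph fin fout ω)) ω.2.1)} :=
          Measure.le_map_apply hmp.measurable.aemeasurable _
      _ = _ := by rw [hmp.map_eq]

/-- the main inequality for a fixed number of points -/
lemma star (hin : Measurable fin) (hout : Measurable fout)
    {τ : Estimator d} {n ρ γ κ ρ' γ₁ ε η : ℝ} (hn : 0 < n)
    (hρ0 : 0 < ρ) (hρ1 : ρ ≤ 1) (hγ : 0 < γ) (hρ' : 0 < ρ') (hρρ : ρ' < ρ)
    (hκ : κ = γ * ρ') (hN : 0 < N) (hη : 0 < η) (hε : 0 < ε)
    (hfin : ∀ μ : (Fin N → Bool) → ℝ, (∀ z, 0 ≤ μ z) → ∑ z, μ z = 1 →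
      ∀ v : Finset (Fin N) → Fin N → ℝ, (∀ A i, |v A i| ≤ 1) → (∀ A i, i ∉ A → v A i = 0) →
      (∑ A, ∑ z, thin ρ A * μ z *
        (if |∑ i, v A i * sg (z i)| < κ * N then 1 else 0) ≤ η) →
      ∃ t : Fin N → Bool, 1 - ε ≤
        ∑ z, μ z * (if γ₁ * N ≤ |∑ i, sg (t i) * sg (z i)| then 1 else 0))
    (topt : (Fin N → Space d) → SimpleGraph (Fin N) → Fin N → Bool)
    (htm : ∀ H, Measurable fun x => topt x H)
    (hopt : ∀ x H t, score fin fout γ₁ x H t ≤ score fin fout γ₁ x H (topt x H)) :
    ENNReal.ofReal (1 - ε) ≤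
      sampleLaw d n N {ω | γ₁ ≤ overlap (topt ω.1 (sampleGraph fin fout ω)) ω.2.1} +
      ENNReal.ofReal (1 / η) * (∑ A : Finset (Fin N), ENNReal.ofReal (thin ρ A) *
        sampleLaw d n A.card
          {ω | ¬ (γ ≤ overlap (τ.toFun n A.card ω.1 (sampleGraph fin fout ω)) ω.2.1)} +
        ENNReal.ofReal (1 / ((ρ - ρ') ^ 2 * N))) := by
  classical
  have hP := isProb_sampleLaw (d := d) (N := N) hn
  have hN' : (0 : ℝ) < N := by exact_mod_cast hN
  set K := Measure.pi fun _ : Fin N => (volume : Measure (Space d))[|box d n] with hK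
  -- total mass
  have htot : ∫⁻ x, ∑ z, ∑ H, wt fin fout x z H ∂K = 1 := by
    have h := sampleLaw_apply (d := d) (N := N) fin fout hin hout n (fun _ _ _ => True)
      (fun z H => by simp)
    simp only [if_true, one_mul] at h
    rw [← h]
    simp
  -- success probability of the optimal estimator
  have hsucc : sampleLaw d n N {ω | γ₁ ≤ overlap (topt ω.1 (sampleGraph fin fout ω)) ω.2.1} =
      ∫⁻ x, ∑ z, ∑ H, (if γ₁ * N ≤ |∑ i, spin (topt x H i) * spin (z i)| then 1 else 0) *
        wt fin fout x z H ∂K := by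
    rw [← sampleLaw_apply fin fout hin hout n
      (fun x z H => γ₁ * N ≤ |∑ i, spin (topt x H i) * spin (z i)|)]
    · congr 1
      ext ω
      simp only [Set.mem_ofPred_eq]
      unfold overlap
      rw [if_neg hN.ne', le_div_iff₀ hN']
    · intro z H
      exact (htm H) (t := {t | γ₁ * N ≤ |∑ i, spin (t i) * spin (z i)|})
        (Set.toFinite _).measurableSet
  -- failure probabilities
  have hfail : ∀ A : Finset (Fin N),
      sampleLaw d n N {ω : Sample d N | |∑ j, spin (tauA τ n A ω.1 (sampleGraph fin fout ω) j) *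
        spin (ω.2.1 (A.orderEmbOfFin rfl j))| < κ * N} =
      ∫⁻ x, ∑ z, ∑ H, (if |∑ i, ext A (tauA τ n A x H) i * sg (z i)| < κ * N then 1 else 0) *
        wt fin fout x z H ∂K := by
    intro A
    rw [← sampleLaw_apply fin fout hin hout n
      (fun x z H => |∑ i, ext A (tauA τ n A x H) i * sg (z i)| < κ * N)]
    · congr 1
      ext ω
      simp only [Set.mem_ofPred_eq]
      rw [sum_ext]
    · intro z H
      exact (measurable_tauA τ n A H) (t := {t | |∑ i, ext A t i * sg (z i)| < κ * N})
        (Set.toFinite _).measurableSet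
  -- integrate the pointwise bound
  have hint : ENNReal.ofReal (1 - ε) * ∫⁻ x, ∑ z, ∑ H, wt fin fout x z H ∂K ≤
      ∫⁻ x, ∑ z, ∑ H, (if γ₁ * N ≤ |∑ i, spin (topt x H i) * spin (z i)| then 1 else 0) *
        wt fin fout x z H ∂K +
      ENNReal.ofReal (1 / η) * ∑ A : Finset (Fin N), ENNReal.ofReal (thin ρ A) *
        ∫⁻ x, ∑ z, ∑ H, (if |∑ i, ext A (tauA τ n A x H) i * sg (z i)| < κ * N then 1 else 0) *
        wt fin fout x z H ∂K := by
    have hmA : ∀ A : Finset (Fin N), Measurable fun x : Fin N → Space d =>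
        ∑ z, ∑ H, (if |∑ i, ext A (tauA τ n A x H) i * sg (z i)| < κ * N then 1 else 0) *
        wt fin fout x z H := by
      intro A
      refine Finset.measurable_sum _ fun z _ => Finset.measurable_sum _ fun H _ => ?_
      refine Measurable.mul ?_ (measurable_wt fin fout hin hout z H)
      refine Measurable.ite ?_ measurable_const measurable_const
      exact (measurable_tauA τ n A H) (t := {t | |∑ i, ext A t i * sg (z i)| < κ * N})
        (Set.toFinite _).measurableSet
    have hmS : Measurable fun x : Fin N → Space d =>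
        ∑ z, ∑ H, (if γ₁ * N ≤ |∑ i, spin (topt x H i) * spin (z i)| then 1 else 0) *
        wt fin fout x z H := by
      refine Finset.measurable_sum _ fun z _ => Finset.measurable_sum _ fun H _ => ?_
      refine Measurable.mul ?_ (measurable_wt fin fout hin hout z H)
      refine Measurable.ite ?_ measurable_const measurable_const
      exact (htm H) (t := {t | γ₁ * N ≤ |∑ i, spin (t i) * spin (z i)|})
        (Set.toFinite _).measurableSet
    have hmW : Measurable fun x : Fin N → Space d => ∑ z, ∑ H, wt fin fout x z H :=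
      Finset.measurable_sum _ fun z _ => Finset.measurable_sum _ fun H _ =>
        measurable_wt fin fout hin hout z H
    rw [← lintegral_const_mul _ hmW]
    have e1 : ∀ A : Finset (Fin N), ENNReal.ofReal (thin ρ A) *
        ∫⁻ x, ∑ z, ∑ H, (if |∑ i, ext A (tauA τ n A x H) i * sg (z i)| < κ * N then 1 else 0) *
        wt fin fout x z H ∂K = ∫⁻ x, ENNReal.ofReal (thin ρ A) *
        ∑ z, ∑ H, (if |∑ i, ext A (tauA τ n A x H) i * sg (z i)| < κ * N then 1 else 0) *
        wt fin fout x z H ∂K := fun A => (lintegral_const_mul _ (hmA A)).symm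
    simp_rw [e1]
    rw [← lintegral_finsetSum _ (fun A _ => (hmA A).const_mul _),
      ← lintegral_const_mul _ (Finset.measurable_sum _ fun A _ => (hmA A).const_mul _),
      ← lintegral_add_left hmS]
    apply lintegral_mono
    intro x
    simp only
    -- sum over graphs outside
    rw [Finset.sum_comm, Finset.sum_comm (s := Finset.univ)
      (f := fun z H => (if γ₁ * N ≤ |∑ i, spin (topt x H i) * spin (z i)| then 1 else 0) *
        wt fin fout x z H)]
    have e2 : ∑ A : Finset (Fin N), ENNReal.ofReal (thin ρ A) *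
        ∑ z, ∑ H, (if |∑ i, ext A (tauA τ n A x H) i * sg (z i)| < κ * N then 1 else 0) *
        wt fin fout x z H = ∑ H, ∑ A, ∑ z, ENNReal.ofReal (thin ρ A) *
          ((if |∑ i, ext A (tauA τ n A x H) i * sg (z i)| < κ * N then 1 else 0) *
          wt fin fout x z H) := by
      rw [Finset.sum_comm]
      apply Finset.sum_congr rfl
      intro A _
      rw [Finset.sum_comm, Finset.mul_sum]
      apply Finset.sum_congr rfl
      intro z _
      rw [Finset.mul_sum]
    rw [e2, Finset.mul_sum, Finset.mul_sum, ← Finset.sum_add_distrib]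
    apply Finset.sum_le_sum
    intro H _
    have h := pointwise_bound fin fout hρ0 hρ1 hη hε hfin x H
      (fun A => ext A (tauA τ n A x H)) (fun A i => abs_ext_le A _ i)
      (fun A i hi => ext_of_notMem A _ hi) (topt x H) (hopt x H)
    unfold score at h
    exact h
  rw [htot, mul_one, ← hsucc] at hint
  refine hint.trans ?_
  gcongr
  -- bound the failure probabilities
  calc ∑ A : Finset (Fin N), ENNReal.ofReal (thin ρ A) *
        ∫⁻ x, ∑ z, ∑ H, (if |∑ i, ext A (tauA τ n A x H) i * sg (z i)| < κ * N then 1 else 0) *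
        wt fin fout x z H ∂K
      ≤ ∑ A : Finset (Fin N), ENNReal.ofReal (thin ρ A) *
        ((if (A.card : ℝ) < ρ' * N then 1 else 0) + sampleLaw d n A.card
          {ω | ¬ (γ ≤ overlap (τ.toFun n A.card ω.1 (sampleGraph fin fout ω)) ω.2.1)}) := by
        apply Finset.sum_le_sum
        intro A _
        rw [← hfail A]
        exact mul_le_mul_right (thinned_fail_le fin fout hn hγ hρ' hκ hN A) _
    _ = ∑ A : Finset (Fin N), ENNReal.ofReal (thin ρ A) *
          sampleLaw d n A.card
          {ω | ¬ (γ ≤ overlap (τ.toFun n A.card ω.1 (sampleGraph fin fout ω)) ω.2.1)} +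
        ENNReal.ofReal (∑ A : Finset (Fin N), thin ρ A *
          (if (A.card : ℝ) < ρ' * N then 1 else 0)) := by
        simp_rw [mul_add, Finset.sum_add_distrib]
        rw [add_comm]
        congr 1
        rw [ENNReal.ofReal_sum_of_nonneg]
        · apply Finset.sum_congr rfl
          intro A _
          split_ifs <;> simp
        · intro A _
          apply mul_nonneg (thin_nonneg hρ0.le hρ1 A)
          split_ifs <;> norm_num
    _ ≤ _ := by
        gcongr
        exact thin_card_lt hρ0.le hρ1 hρρ hN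

end

end Pool.Agent.Lib.MP_d9d2fc_pr
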